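import Pool.Agent.TH847.TP.Mass

/-!
Bounds for the products over primes, and the choice of the scale.
-/

set_option autoImplicit false

open Finset

namespace Pool.Agent.TH847.TP

lemma exp_two_le {y : ℝ} (h0 : 0 ≤ y) (h1 : y ≤ 1 / 2) : Real.exp (-(2 * y)) ≤ 1 - y := by
  have h2 := Real.add_one_le_exp (2 * y)
  have h3 : (0 : ℝ) < 2 * y + 1 := by linarith
  rw [Real.exp_neg]
  calc (Real.exp (2 * y))⁻¹ ≤ (2 * y + 1)⁻¹ := inv_anti₀ h3 h2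
    _ ≤ 1 - y := by
        rw [inv_le_iff_one_le_mul₀ h3]
        nlinarith

lemma sum_inv_le (P : Finset ℕ) (x : ℕ) (hP : ∀ p ∈ P, 0 < p ∧ p ≤ x) :
    ∑ p ∈ P, (1 : ℝ) / p ≤ 1 + Real.log x := by
  have h1 := harmonic_le_one_add_log x
  have h2 : (harmonic x : ℝ) = ∑ i ∈ range x, ((i : ℝ) + 1)⁻¹ := by
    rw [harmonic]
    push_cast
    rfl
  rw [h2] at h1
  refine le_trans ?_ h1
  calc ∑ p ∈ P, (1 : ℝ) / p ≤ ∑ p ∈ (range x).image (fun i : ℕ => i + 1), (1 : ℝ) / (p : ℝ) := by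
        apply sum_le_sum_of_subset_of_nonneg
        · intro p hp
          rw [mem_image]
          obtain ⟨h3, h4⟩ := hP p hp
          exact ⟨p - 1, mem_range.2 (by omega), by omega⟩
        · intro _ _ _
          positivity
    _ = ∑ i ∈ range x, ((i : ℝ) + 1)⁻¹ := by
        rw [sum_image (fun a _ b _ hab => Nat.succ_injective hab)]
        apply sum_congr rfl
        intro i _
        push_cast
        rw [one_div]

/-- the sifted product is not small -/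
lemma V_lower (P : Finset ℕ) (x n k D : ℕ) (hx : 1 ≤ x) (hk : k ≤ n) (hP : ∀ p ∈ P, 2 * n ≤ p ∧ 0 < p ∧ p ≤ x)
    (hD : Real.exp (2 * n) ≤ D) :
    1 ≤ (∏ p ∈ P, (1 - (k : ℝ) / p)) * (D * (x : ℝ) ^ (2 * n)) := by
  have hx' : (0 : ℝ) < x := by exact_mod_cast hx
  have h1 : Real.exp (-(2 * n * (1 + Real.log x))) ≤ ∏ p ∈ P, (1 - (k : ℝ) / p) := by
    calc Real.exp (-(2 * n * (1 + Real.log x)))
        ≤ Real.exp (∑ p ∈ P, -(2 * ((k : ℝ) / p))) := by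
          apply Real.exp_le_exp.2
          rw [sum_neg_distrib, neg_le_neg_iff, ← mul_sum]
          have h2 : ∑ p ∈ P, (k : ℝ) / p = k * ∑ p ∈ P, (1 : ℝ) / p := by
            rw [mul_sum]
            apply sum_congr rfl
            intro p _
            ring
          rw [h2]
          have h3 := sum_inv_le P x (fun p hp => (hP p hp).2)
          have h4 : (k : ℝ) ≤ n := by exact_mod_cast hk
          have h5 : (0 : ℝ) ≤ ∑ p ∈ P, (1 : ℝ) / p := sum_nonneg fun _ _ => by positivity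
          have h6 : (k : ℝ) * ∑ p ∈ P, (1 : ℝ) / p ≤ n * (1 + Real.log x) :=
            mul_le_mul h4 h3 h5 (Nat.cast_nonneg n)
          linarith
      _ = ∏ p ∈ P, Real.exp (-(2 * ((k : ℝ) / p))) := Real.exp_sum _ _
      _ ≤ ∏ p ∈ P, (1 - (k : ℝ) / p) := by
          apply prod_le_prod
          · intro _ _
            exact (Real.exp_pos _).le
          · intro p hp
            obtain ⟨h2, h3, _⟩ := hP p hp
            have hp' : (0 : ℝ) < p := by exact_mod_cast h3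
            apply exp_two_le (by positivity)
            rw [div_le_iff₀ hp']
            have : ((2 * k : ℕ) : ℝ) ≤ p := by exact_mod_cast (show 2 * k ≤ p by omega)
            push_cast at this
            linarith
  have h2 : Real.exp (2 * n * Real.log x) = (x : ℝ) ^ (2 * n) := by
    rw [show (2 * (n : ℝ) * Real.log x) = ((2 * n : ℕ) : ℝ) * Real.log x by push_cast; ring,
      Real.exp_nat_mul, Real.exp_log hx']
  have h3 : Real.exp (2 * n * (1 + Real.log x)) ≤ D * (x : ℝ) ^ (2 * n) := by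
    rw [mul_add, mul_one, Real.exp_add, h2]
    exact mul_le_mul_of_nonneg_right hD (by positivity)
  have h4 : (0 : ℝ) < D * (x : ℝ) ^ (2 * n) := lt_of_lt_of_le (Real.exp_pos _) h3
  calc (1 : ℝ) = Real.exp (-(2 * n * (1 + Real.log x))) * Real.exp (2 * n * (1 + Real.log x)) := by
        rw [← Real.exp_add, neg_add_cancel, Real.exp_zero]
    _ ≤ (∏ p ∈ P, (1 - (k : ℝ) / p)) * (D * (x : ℝ) ^ (2 * n)) :=
        mul_le_mul h1 h3 (Real.exp_pos _).le ((Real.exp_pos _).le.trans h1)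

lemma scale (x : ℕ) (hx : 2 ≤ x) : ∃ J : ℕ, x ≤ 2 ^ 2 ^ J ∧ 2 ^ 2 ^ J ≤ x ^ 2 := by
  have hex : ∃ J : ℕ, x ≤ 2 ^ 2 ^ J := by
    refine ⟨x, ?_⟩
    have h1 : x < 2 ^ x := Nat.lt_two_pow_self
    have h2 : 2 ^ x < 2 ^ 2 ^ x := Nat.lt_two_pow_self
    omega
  classical
  refine ⟨Nat.find hex, Nat.find_spec hex, ?_⟩
  rcases Nat.eq_zero_or_pos (Nat.find hex) with h | h
  · rw [h]
    calc 2 ^ 2 ^ 0 = 2 := rfl
      _ ≤ x := hx
      _ ≤ x ^ 2 := Nat.le_self_pow (by norm_num) x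
  · obtain ⟨j, hj⟩ := Nat.exists_eq_succ_of_ne_zero h.ne'
    have h1 := Nat.find_min hex (show j < Nat.find hex by omega)
    rw [hj, Nat.succ_eq_add_one, pow_succ 2 j, pow_mul]
    exact Nat.pow_le_pow_left (by omega) 2

/-- the product over the long range beats the sum over the quotients -/
lemma tail_bound {A0 : ℕ} (hA : ∀ A g : ℕ, A0 ≤ A →
    ∏ p ∈ (Ioc (2 ^ 2 ^ A) (2 ^ 2 ^ (A + g))).filter Nat.Prime, (1 - 1 / (p : ℝ)) ≤
      Real.exp (-((g : ℝ) / 2))) (w A g : ℕ) (hA0 : A0 ≤ A) (P M : Finset ℕ)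
    (hw : w ≤ 2 ^ 2 ^ A) (hP : ∀ p ∈ P, p ≤ 2 ^ 2 ^ A)
    (hM : ∀ m ∈ M, 0 < m ∧ m ≤ 2 ^ 2 ^ A ∧ ∀ p : ℕ, p.Prime → p ∣ m → w < p ∧ p ∉ P) :
    (∏ p ∈ (Ioc w (2 ^ 2 ^ (A + g))).filter Nat.Prime \ P, (1 - 1 / (p : ℝ))) * ∑ m ∈ M, (1 : ℝ) / m ≤
      Real.exp (-((g : ℝ) / 2)) := by
  classical
  set S := (Ioc w (2 ^ 2 ^ A)).filter Nat.Prime \ P with hS
  have hle : 2 ^ 2 ^ A ≤ 2 ^ 2 ^ (A + g) :=
    Nat.pow_le_pow_right (by norm_num) (Nat.pow_le_pow_right (by norm_num) (by omega))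
  have e1 : (Ioc w (2 ^ 2 ^ (A + g))).filter Nat.Prime \ P =
      S ∪ (Ioc (2 ^ 2 ^ A) (2 ^ 2 ^ (A + g))).filter Nat.Prime := by
    ext p
    simp only [hS, mem_union, mem_sdiff, mem_filter, mem_Ioc]
    constructor
    · rintro ⟨⟨⟨h1, h2⟩, h3⟩, h4⟩
      by_cases h5 : p ≤ 2 ^ 2 ^ A
      · exact Or.inl ⟨⟨⟨h1, h5⟩, h3⟩, h4⟩
      · exact Or.inr ⟨⟨by omega, h2⟩, h3⟩
    · rintro (⟨⟨⟨h1, h2⟩, h3⟩, h4⟩ | ⟨⟨h1, h2⟩, h3⟩)
      · exact ⟨⟨⟨h1, h2.trans hle⟩, h3⟩, h4⟩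
      · refine ⟨⟨⟨lt_of_le_of_lt hw h1, h2⟩, h3⟩, fun h4 => ?_⟩
        have := hP p h4
        omega
  have hdis : Disjoint S ((Ioc (2 ^ 2 ^ A) (2 ^ 2 ^ (A + g))).filter Nat.Prime) := by
    rw [disjoint_left]
    intro p hp hp'
    rw [hS, mem_sdiff, mem_filter, mem_Ioc] at hp
    rw [mem_filter, mem_Ioc] at hp'
    omega
  have hSp : ∀ p ∈ S, (0 : ℝ) < 1 - 1 / (p : ℝ) := by
    intro p hp
    rw [hS, mem_sdiff, mem_filter] at hp
    have h1 : (1 : ℝ) < p := by exact_mod_cast hp.1.2.one_lt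
    rw [sub_pos, div_lt_one (by linarith)]
    exact h1
  have h1 := msum S M (fun p hp => by
      rw [hS, mem_sdiff, mem_filter] at hp
      exact hp.1.2) (by
      intro m hm
      obtain ⟨h2, h3, h4⟩ := hM m hm
      refine ⟨h2.ne', fun p hp hpm => ?_⟩
      rw [hS, mem_sdiff, mem_filter, mem_Ioc]
      exact ⟨⟨⟨(h4 p hp hpm).1, (Nat.le_of_dvd h2 hpm).trans h3⟩, hp⟩, (h4 p hp hpm).2⟩)
  rw [e1, prod_union hdis]
  have h2 : 0 < ∏ p ∈ S, (1 - 1 / (p : ℝ)) := prod_pos hSp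
  have h3 : 0 ≤ ∏ p ∈ (Ioc (2 ^ 2 ^ A) (2 ^ 2 ^ (A + g))).filter Nat.Prime, (1 - 1 / (p : ℝ)) := by
    apply prod_nonneg
    intro p hp
    have h1 : (1 : ℝ) ≤ p := by exact_mod_cast (mem_filter.1 hp).2.one_lt.le
    rw [sub_nonneg, div_le_one (by linarith)]
    exact h1
  calc (∏ p ∈ S, (1 - 1 / (p : ℝ))) *
        (∏ p ∈ (Ioc (2 ^ 2 ^ A) (2 ^ 2 ^ (A + g))).filter Nat.Prime, (1 - 1 / (p : ℝ))) *
        ∑ m ∈ M, (1 : ℝ) / m
      ≤ (∏ p ∈ S, (1 - 1 / (p : ℝ))) *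
        (∏ p ∈ (Ioc (2 ^ 2 ^ A) (2 ^ 2 ^ (A + g))).filter Nat.Prime, (1 - 1 / (p : ℝ))) *
        ∏ p ∈ S, (1 - 1 / (p : ℝ))⁻¹ := mul_le_mul_of_nonneg_left h1 (mul_nonneg h2.le h3)
    _ = ∏ p ∈ (Ioc (2 ^ 2 ^ A) (2 ^ 2 ^ (A + g))).filter Nat.Prime, (1 - 1 / (p : ℝ)) := by
        rw [prod_inv_distrib]
        field_simp
    _ ≤ _ := hA A g hA0

end Pool.Agent.TH847.TP
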