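import Mathlib
import Pool.Agent.Helper112.Lp.Kmg

/-!
Composite members of pairwise coprime sets; sums over integers composed of given primes; the primes of a
long range.
-/

set_option autoImplicit false

open Finset

namespace Pool.Agent.TH847.TP

lemma minFac_inj {Bs : Finset ℕ} (hc : ∀ b ∈ Bs, ∀ b' ∈ Bs, b ≠ b' → Nat.Coprime b b')
    (h1 : ∀ b ∈ Bs, b ≠ 1) : Set.InjOn Nat.minFac (Bs : Set ℕ) := by
  intro b hb b' hb' h
  by_contra hne
  have h2 := hc b hb b' hb' hne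
  have h3 : b.minFac ∣ Nat.gcd b b' := Nat.dvd_gcd b.minFac_dvd (h ▸ b'.minFac_dvd)
  rw [h2] at h3
  exact (Nat.minFac_prime (h1 b hb)).one_lt.ne' (Nat.dvd_one.1 h3)

lemma inv_sq_sum (Y : ℕ) (hY : 1 ≤ Y) (Q : Finset ℕ) (hQ : ∀ q ∈ Q, Y < q) :
    ∑ q ∈ Q, (1 : ℝ) / (q : ℝ) ^ 2 ≤ 1 / Y := by
  set N := Q.sup id + Y with hN
  have hsub : Q ⊆ Ioc Y N := by
    intro q hq
    rw [mem_Ioc]
    have : q ≤ Q.sup id := Finset.le_sup (f := id) hq
    exact ⟨hQ q hq, by omega⟩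
  calc ∑ q ∈ Q, (1 : ℝ) / (q : ℝ) ^ 2 ≤ ∑ q ∈ Ioc Y N, (1 : ℝ) / (q : ℝ) ^ 2 :=
        sum_le_sum_of_subset_of_nonneg hsub fun _ _ _ => by positivity
    _ = ∑ q ∈ Ioc Y N, ((q : ℝ) ^ 2)⁻¹ := by simp only [one_div]
    _ ≤ (Y : ℝ)⁻¹ - (N : ℝ)⁻¹ := sum_Ioc_inv_sq_le_sub (by omega) (by omega)
    _ ≤ 1 / Y := by
        rw [one_div]
        have : (0 : ℝ) ≤ (N : ℝ)⁻¹ := by positivity
        linarith

/-- the reciprocals of the large composite members of a pairwise coprime set have a small sum -/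
lemma comp_sum (Bs : Finset ℕ) (hc : ∀ b ∈ Bs, ∀ b' ∈ Bs, b ≠ b' → Nat.Coprime b b')
    (Y : ℕ) (hY : 1 ≤ Y) (hb : ∀ b ∈ Bs, ¬ b.Prime ∧ Y ^ 2 < b) :
    ∑ b ∈ Bs, (1 : ℝ) / b ≤ 2 / Y := by
  have hY' : (1 : ℝ) ≤ Y := by exact_mod_cast hY
  have hY0 : (0 : ℝ) < Y := by linarith
  have hne1 : ∀ b ∈ Bs, b ≠ 1 := by
    intro b hb' h
    have := (hb b hb').2
    have h2 : 1 ≤ Y ^ 2 := Nat.one_le_pow _ _ hY
    omega
  have hinj := minFac_inj hc hne1
  have hA : ∑ b ∈ Bs.filter (fun b => b.minFac ≤ Y), (1 : ℝ) / b ≤ 1 / Y := by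
    have hcard : (Bs.filter (fun b => b.minFac ≤ Y)).card ≤ Y := by
      calc (Bs.filter (fun b => b.minFac ≤ Y)).card ≤ (Icc 1 Y).card := by
            apply card_le_card_of_injOn Nat.minFac
            · intro b hb'
              rw [mem_coe, mem_filter] at hb'
              rw [mem_coe, mem_Icc]
              exact ⟨Nat.minFac_pos b, hb'.2⟩
            · exact hinj.mono (by
                intro b hb'
                rw [mem_coe, mem_filter] at hb'
                exact hb'.1)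
        _ = Y := by rw [Nat.card_Icc, Nat.add_sub_cancel]
    calc ∑ b ∈ Bs.filter (fun b => b.minFac ≤ Y), (1 : ℝ) / b
        ≤ ∑ _b ∈ Bs.filter (fun b => b.minFac ≤ Y), (1 : ℝ) / (Y : ℝ) ^ 2 := by
          apply sum_le_sum
          intro b hb'
          rw [mem_filter] at hb'
          apply one_div_le_one_div_of_le (by positivity)
          exact_mod_cast (hb b hb'.1).2.le
      _ = ((Bs.filter (fun b => b.minFac ≤ Y)).card : ℝ) * (1 / (Y : ℝ) ^ 2) := by
          rw [sum_const, nsmul_eq_mul]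
      _ ≤ (Y : ℝ) * (1 / (Y : ℝ) ^ 2) := by
          apply mul_le_mul_of_nonneg_right _ (by positivity)
          exact_mod_cast hcard
      _ = 1 / Y := by field_simp
  have hB : ∑ b ∈ Bs.filter (fun b => ¬ b.minFac ≤ Y), (1 : ℝ) / b ≤ 1 / Y := by
    have h1 : ∑ b ∈ Bs.filter (fun b => ¬ b.minFac ≤ Y), (1 : ℝ) / b ≤
        ∑ b ∈ Bs.filter (fun b => ¬ b.minFac ≤ Y), (1 : ℝ) / (b.minFac : ℝ) ^ 2 := by
      apply sum_le_sum
      intro b hb'
      rw [mem_filter] at hb'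
      have h2 := (hb b hb'.1)
      have h3 : 0 < b := by omega
      have h4 := Nat.minFac_sq_le_self h3 h2.1
      have h5 : (0 : ℝ) < (b.minFac : ℝ) := by exact_mod_cast Nat.minFac_pos b
      apply one_div_le_one_div_of_le (by positivity)
      exact_mod_cast h4
    refine h1.trans ?_
    have hinj' : Set.InjOn Nat.minFac ((Bs.filter (fun b => ¬ b.minFac ≤ Y) : Finset ℕ) : Set ℕ) :=
      hinj.mono (by
        intro b hb'
        rw [mem_coe, mem_filter] at hb'
        exact hb'.1)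
    rw [← sum_image (f := fun q : ℕ => (1 : ℝ) / (q : ℝ) ^ 2) hinj']
    apply inv_sq_sum Y hY
    intro q hq
    rw [mem_image] at hq
    obtain ⟨b, hb', rfl⟩ := hq
    rw [mem_filter] at hb'
    omega
  rw [← sum_filter_add_sum_filter_not Bs (fun b => b.minFac ≤ Y)]
  have : (2 : ℝ) / Y = 1 / Y + 1 / Y := by ring
  linarith

/-- a pairwise coprime set has few composite members -/
lemma comp_card (Bs : Finset ℕ) (hc : ∀ b ∈ Bs, ∀ b' ∈ Bs, b ≠ b' → Nat.Coprime b b')
    (X : ℕ) (hb : ∀ b ∈ Bs, ¬ b.Prime ∧ 1 < b ∧ b ≤ X) : Bs.card ≤ Nat.sqrt X := by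
  have hinj := minFac_inj hc (fun b hb' => by have := (hb b hb').2.1; omega)
  calc Bs.card ≤ (Icc 1 (Nat.sqrt X)).card := by
        apply card_le_card_of_injOn Nat.minFac _ hinj
        intro b hb'
        rw [mem_coe] at hb'
        rw [mem_coe, mem_Icc]
        refine ⟨Nat.minFac_pos b, ?_⟩
        rw [Nat.le_sqrt']
        obtain ⟨h1, h2, h3⟩ := hb b hb'
        exact (Nat.minFac_sq_le_self (by omega) h1).trans h3
    _ = Nat.sqrt X := by rw [Nat.card_Icc, Nat.add_sub_cancel]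

/-- the completely multiplicative function `1 / n` -/
noncomputable def invHom : ℕ →* ℝ where
  toFun n := (n : ℝ)⁻¹
  map_one' := by simp
  map_mul' a b := by push_cast; rw [mul_inv]

/-- sums over integers composed of given primes -/
lemma msum (S M : Finset ℕ) (hS : ∀ p ∈ S, p.Prime)
    (hM : ∀ m ∈ M, m ≠ 0 ∧ ∀ p : ℕ, p.Prime → p ∣ m → p ∈ S) :
    ∑ m ∈ M, (1 : ℝ) / m ≤ ∏ p ∈ S, (1 - 1 / (p : ℝ))⁻¹ := by
  have h := EulerProduct.summable_and_hasSum_factoredNumbers_prod_filter_prime_geometric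
    (f := invHom) (by
      intro p hp
      show ‖((p : ℝ)⁻¹)‖ < 1
      rw [norm_inv, Real.norm_natCast]
      exact inv_lt_one_of_one_lt₀ (by exact_mod_cast hp.one_lt)) S
  have h1 := h.2
  have e : S.filter Nat.Prime = S := filter_true_of_mem hS
  rw [e] at h1
  have e2 : ∏ p ∈ S, (1 - 1 / (p : ℝ))⁻¹ = ∏ p ∈ S, (1 - invHom p)⁻¹ := by
    apply prod_congr rfl
    intro p _
    show (1 - 1 / (p : ℝ))⁻¹ = (1 - (p : ℝ)⁻¹)⁻¹
    rw [one_div]
  rw [e2, ← h1.tsum_eq]
  have hmem : ∀ m ∈ M, m ∈ Nat.factoredNumbers S := by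
    intro m hm
    rw [Nat.mem_factoredNumbers']
    exact (hM m hm).2
  have hmem' : ∀ m ∈ M, m ∈ Nat.factoredNumbers S := hmem
  set M' : Finset (Nat.factoredNumbers S) := M.subtype (fun m => m ∈ Nat.factoredNumbers S) with hM'
  have e3 : ∑ m ∈ M, (1 : ℝ) / m = ∑ m ∈ M', invHom (m : ℕ) := by
    rw [hM', sum_subtype_of_mem (f := fun m : ℕ => invHom m) hmem']
    apply sum_congr rfl
    intro m _
    show (1 : ℝ) / m = (m : ℝ)⁻¹
    rw [one_div]
  rw [e3]
  apply Summable.sum_le_tsum _ _ h1.summable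
  intro m _
  show 0 ≤ (((m : ℕ) : ℝ))⁻¹
  positivity

/-- the primes of a long range remove most integers -/
theorem prod_tail : ∃ A0 : ℕ, 1 ≤ A0 ∧ ∀ A g : ℕ, A0 ≤ A →
    ∏ p ∈ (Ioc (2 ^ 2 ^ A) (2 ^ 2 ^ (A + g))).filter Nat.Prime, (1 - 1 / (p : ℝ)) ≤
      Real.exp (-((g : ℝ) / 2)) := by
  obtain ⟨C, hC, hM⟩ := Pool.Agent.Helper112.LP.mertens_group
  obtain ⟨A0, hA0⟩ := exists_nat_ge (8 * C)
  refine ⟨A0 + 1, by omega, fun A g hA => ?_⟩
  have hlog : (0.69 : ℝ) < Real.log 2 := by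
    have := Real.log_two_gt_d9
    linarith
  have hgr : ∀ i : ℕ, (1 : ℝ) / 2 ≤ ∑ l ∈ Pool.Agent.Helper112.LP.Gj (A + i + 1), (1 : ℝ) / l := by
    intro i
    have h1 := (abs_le.1 (hM (A + i + 1) (by omega))).1
    have h2 : C / 2 ^ (A + i + 1) ≤ 1 / 8 := by
      rw [div_le_iff₀ (by positivity)]
      have h3 : ((A + i + 1 : ℕ) : ℝ) ≤ 2 ^ (A + i + 1) := by
        exact_mod_cast (Nat.lt_two_pow_self (n := A + i + 1)).le
      have h4 : (A0 : ℝ) ≤ ((A + i + 1 : ℕ) : ℝ) := by exact_mod_cast (show A0 ≤ A + i + 1 by omega)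
      linarith
    linarith
  induction g with
  | zero => simp
  | succ g ih =>
    have hle1 : 2 ^ 2 ^ A ≤ 2 ^ 2 ^ (A + g) :=
      Nat.pow_le_pow_right (by norm_num) (Nat.pow_le_pow_right (by norm_num) (by omega))
    have hle2 : 2 ^ 2 ^ (A + g) ≤ 2 ^ 2 ^ (A + (g + 1)) :=
      Nat.pow_le_pow_right (by norm_num) (Nat.pow_le_pow_right (by norm_num) (by omega))
    have e1 : (Ioc (2 ^ 2 ^ A) (2 ^ 2 ^ (A + (g + 1)))).filter Nat.Prime =
        (Ioc (2 ^ 2 ^ A) (2 ^ 2 ^ (A + g))).filter Nat.Prime ∪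
        (Ioc (2 ^ 2 ^ (A + g)) (2 ^ 2 ^ (A + (g + 1)))).filter Nat.Prime := by
      rw [← filter_union, Ioc_union_Ioc_eq_Ioc hle1 hle2]
    have hdis : Disjoint ((Ioc (2 ^ 2 ^ A) (2 ^ 2 ^ (A + g))).filter Nat.Prime)
        ((Ioc (2 ^ 2 ^ (A + g)) (2 ^ 2 ^ (A + (g + 1)))).filter Nat.Prime) := by
      rw [disjoint_left]
      intro p hp hp'
      rw [mem_filter, mem_Ioc] at hp hp'
      omega
    rw [e1, prod_union hdis]
    have hnn : ∀ T : Finset ℕ, (∀ p ∈ T, Nat.Prime p) → 0 ≤ ∏ p ∈ T, (1 - 1 / (p : ℝ)) := by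
      intro T hT
      apply prod_nonneg
      intro p hp
      have h1 : (1 : ℝ) ≤ p := by exact_mod_cast (hT p hp).one_lt.le
      rw [sub_nonneg, div_le_one (by linarith)]
      exact h1
    have h2 : ∏ p ∈ (Ioc (2 ^ 2 ^ (A + g)) (2 ^ 2 ^ (A + (g + 1)))).filter Nat.Prime, (1 - 1 / (p : ℝ)) ≤
        Real.exp (-(1 / 2)) := by
      calc ∏ p ∈ (Ioc (2 ^ 2 ^ (A + g)) (2 ^ 2 ^ (A + (g + 1)))).filter Nat.Prime, (1 - 1 / (p : ℝ))
          ≤ ∏ p ∈ (Ioc (2 ^ 2 ^ (A + g)) (2 ^ 2 ^ (A + (g + 1)))).filter Nat.Prime,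
              Real.exp (-(1 / (p : ℝ))) := by
            apply prod_le_prod
            · intro p hp
              have h1 : (1 : ℝ) ≤ p := by exact_mod_cast (mem_filter.1 hp).2.one_lt.le
              rw [sub_nonneg, div_le_one (by linarith)]
              exact h1
            · intro p _
              have := Real.add_one_le_exp (-(1 / (p : ℝ)))
              linarith
        _ = Real.exp (-∑ p ∈ (Ioc (2 ^ 2 ^ (A + g)) (2 ^ 2 ^ (A + (g + 1)))).filter Nat.Prime,
              1 / (p : ℝ)) := by rw [← Real.exp_sum, sum_neg_distrib]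
        _ ≤ Real.exp (-(1 / 2)) := by
            apply Real.exp_le_exp.2
            have h3 := hgr g
            have h4 : ∑ l ∈ Pool.Agent.Helper112.LP.Gj (A + g + 1), (1 : ℝ) / l ≤
                ∑ p ∈ (Ioc (2 ^ 2 ^ (A + g)) (2 ^ 2 ^ (A + (g + 1)))).filter Nat.Prime, 1 / (p : ℝ) := by
              apply sum_le_sum_of_subset_of_nonneg
              · intro p hp
                unfold Pool.Agent.Helper112.LP.Gj at hp
                rw [mem_filter, mem_Ico, Nat.add_sub_cancel] at hp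
                rw [mem_filter, mem_Ioc]
                obtain ⟨⟨h5, h6⟩, h7⟩ := hp
                refine ⟨⟨lt_of_le_of_ne h5 ?_, ?_⟩, h7⟩
                · intro h8
                  rw [← h8] at h7
                  have h9 : 2 ≤ 2 ^ (A + g) := by
                    calc 2 = 2 ^ 1 := rfl
                      _ ≤ 2 ^ (A + g) := Nat.pow_le_pow_right (by norm_num) (by omega)
                  exact Nat.Prime.not_prime_pow h9 h7
                · rw [← add_assoc]
                  exact h6.le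
              · intro _ _ _
                positivity
            linarith
    calc _ ≤ Real.exp (-((g : ℝ) / 2)) * Real.exp (-(1 / 2)) :=
          mul_le_mul ih h2 (hnn _ fun p hp => (mem_filter.1 hp).2) (Real.exp_pos _).le
      _ = Real.exp (-(((g + 1 : ℕ) : ℝ) / 2)) := by
          rw [← Real.exp_add]
          congr 1
          push_cast
          ring

end Pool.Agent.TH847.TP
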