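import Pool.Agent.TH847.TP.Sieve
import Pool.Agent.TH847.TP.Mass

/-!
The three kinds of bad translations: their number.
-/

set_option autoImplicit false

open Finset

namespace Pool.Agent.TH847.TP

open Classical in
lemma card_hitE {p : ℕ} (hp : p.Prime) (α β0 : ℕ) (hα : ¬ p ∣ α) (E : Finset ℕ) (hE : ∀ a ∈ E, a < p) :
    ((range p).filter (fun c => ∃ a ∈ E, p ∣ α * c + (β0 + a))).card = E.card := by
  have h := card_hit hp α hα (E.image (fun a => β0 + a)) (by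
    intro β hβ β' hβ' he
    rw [mem_image] at hβ hβ'
    obtain ⟨a, ha, rfl⟩ := hβ
    obtain ⟨a', ha', rfl⟩ := hβ'
    have h1 : a % p = a' % p := Nat.ModEq.add_left_cancel' β0 he
    rw [Nat.mod_eq_of_lt (hE a ha), Nat.mod_eq_of_lt (hE a' ha')] at h1
    rw [h1])
  rw [card_image_of_injective _ (fun a b hab => by simpa using hab)] at h
  rw [← h]
  congr 1
  apply filter_congr
  intro c _
  constructor
  · rintro ⟨a, ha, hd⟩
    exact ⟨β0 + a, mem_image_of_mem _ ha, hd⟩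
  · rintro ⟨β, hβ, hd⟩
    rw [mem_image] at hβ
    obtain ⟨a, ha, rfl⟩ := hβ
    exact ⟨a, ha, hd⟩

lemma class_unique {d Q c v v' : ℕ} (hd : 0 < d) (h : d ∣ Q * v + c) (h' : d ∣ Q * v' + c) :
    v % (d / Nat.gcd d Q) = v' % (d / Nat.gcd d Q) := by
  have h1 : Q * v + c ≡ Q * v' + c [MOD d] := by
    rw [Nat.ModEq, Nat.mod_eq_zero_of_dvd h, Nat.mod_eq_zero_of_dvd h']
  have h2 : Q * v ≡ Q * v' [MOD d] := Nat.ModEq.add_right_cancel' c h1
  exact Nat.ModEq.cancel_left_div_gcd hd h2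

/-- multiples of `d` in the sifted set -/
lemma typeI {C b J z0 n Q1 : ℕ} (hC1 : 1 ≤ C) (hS : SV C) (P E : Finset ℕ) (hb : C * (n + 1) ≤ b)
    (hz : C * (n + 1) ≤ z0) (hP : ∀ p ∈ P, p.Prime ∧ z0 < p ∧ p ≤ 2 ^ 2 ^ J)
    (hPQ : ∀ p ∈ P, ¬ p ∣ Q1) (hE : ∀ a ∈ E, a ≤ n) (hEc : E.card ≤ n)
    (T : Finset ℕ) (U a d : ℕ) (ha : 1 ≤ a) (han : a ≤ n) (hd : 0 < d) (hdU : d ≤ U)
    (hPd : ∀ p ∈ P, ¬ p ∣ d)
    (hT : ∀ v ∈ T, v < U ∧ d ∣ Q1 * v + (Q1 + a) ∧ ∀ p ∈ P, ¬ ∃ a' ∈ E, p ∣ Q1 * v + (Q1 + a')) :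
    (T.card : ℝ) ≤ 4 * n * (U * ∏ p ∈ P, (1 - (E.card : ℝ) / p)) * (1 / d) +
      ((2 : ℝ) ^ 2 ^ J) ^ (C * b) := by
  have hnz : n ≤ z0 := by
    have : n + 1 ≤ C * (n + 1) := Nat.le_mul_of_pos_left _ (by omega)
    omega
  have hV : 0 ≤ ∏ p ∈ P, (1 - (E.card : ℝ) / p) :=
    prod_nonneg' (κ := n) (ρ := fun _ => E.card) hnz (fun p hp => (hP p hp).2.1) (fun _ _ => hEc)
  have hd' : (0 : ℝ) < d := by exact_mod_cast hd
  rcases T.eq_empty_or_nonempty with h | ⟨v0, hv0⟩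
  · rw [h, card_empty, Nat.cast_zero]
    positivity
  set g := Nat.gcd d Q1 with hg
  have hgd : g ∣ d := Nat.gcd_dvd_left _ _
  have hgQ : g ∣ Q1 := Nat.gcd_dvd_right _ _
  have hga : g ∣ a := by
    have h1 : g ∣ Q1 * v0 + (Q1 + a) := hgd.trans (hT v0 hv0).2.1
    have h2 : g ∣ Q1 * v0 + Q1 := dvd_add (Dvd.dvd.mul_right hgQ _) hgQ
    rw [← add_assoc] at h1
    exact (Nat.dvd_add_right h2).1 h1
  have hgn : g ≤ n := (Nat.le_of_dvd ha hga).trans han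
  have hg0 : 0 < g := Nat.gcd_pos_of_pos_left _ hd
  set q := d / g with hq
  have hgq : g * q = d := Nat.mul_div_cancel' hgd
  have hq0 : 0 < q := Nat.pos_of_ne_zero (by rintro h; rw [h] at hgq; omega)
  have hqd : q ≤ d := Nat.div_le_self _ _
  set r0 := v0 % q with hr0
  have hcl : ∀ v ∈ T, v % q = r0 := fun v hv =>
    class_unique hd (hT v hv).2.1 (hT v0 hv0).2.1
  have key := sub_upper (κ := n) hC1 hS hb hz hP
    (fun p y => ∃ a' ∈ E, p ∣ (Q1 * q) * y + ((Q1 * r0 + Q1) + a')) (fun _ => E.card)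
    (by
      intro p _ v
      constructor
      · rintro ⟨a', h1, h2⟩
        exact ⟨a', h1, (dvd_mod_iff _ _ _ _).1 h2⟩
      · rintro ⟨a', h1, h2⟩
        exact ⟨a', h1, (dvd_mod_iff _ _ _ _).2 h2⟩)
    (by
      intro p hp
      convert card_hitE (hP p hp).1 (Q1 * q) (Q1 * r0 + Q1) (by
        intro h
        rcases (hP p hp).1.dvd_mul.1 h with h1 | h1
        · exact hPQ p hp h1
        · exact hPd p hp (h1.trans ⟨g, by rw [mul_comm]; exact hgq.symm⟩)) E (by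
        intro a' ha'
        have := hE a' ha'
        have := (hP p hp).2.1
        omega))
    (fun _ _ => hEc) T q r0 U hq0 (hqd.trans hdU)
    (by
      intro v hv
      refine ⟨(hT v hv).1, hcl v hv, ?_⟩
      rintro p hp ⟨a', h1, h2⟩
      apply (hT v hv).2.2 p hp
      refine ⟨a', h1, ?_⟩
      have e : Q1 * v + (Q1 + a') = (Q1 * q) * (v / q) + ((Q1 * r0 + Q1) + a') := by
        have h3 := Nat.div_add_mod v q
        rw [hcl v hv] at h3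
        calc Q1 * v + (Q1 + a') = Q1 * (q * (v / q) + r0) + (Q1 + a') := by rw [h3]
          _ = _ := by ring
      rw [e]
      exact h2)
  refine key.trans (add_le_add ?_ le_rfl)
  have hq' : (0 : ℝ) < q := by exact_mod_cast hq0
  have h1 : (U : ℝ) / q ≤ n * U * (1 / d) := by
    have h2 : (d : ℝ) = g * q := by exact_mod_cast hgq.symm
    have h3 : (g : ℝ) ≤ n := by exact_mod_cast hgn
    have hg' : (0 : ℝ) < g := by exact_mod_cast hg0
    rw [h2, mul_one_div, div_le_div_iff₀ hq' (by positivity)]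
    have hU : (0 : ℝ) ≤ U := Nat.cast_nonneg U
    have : (U : ℝ) * g * q ≤ U * n * q := by
      apply mul_le_mul_of_nonneg_right _ hq'.le
      exact mul_le_mul_of_nonneg_left h3 hU
    linarith
  calc 4 * ((U : ℝ) / q) * ∏ p ∈ P, (1 - (E.card : ℝ) / p)
      ≤ 4 * (n * U * (1 / d)) * ∏ p ∈ P, (1 - (E.card : ℝ) / p) := by
        apply mul_le_mul_of_nonneg_right _ hV
        linarith
    _ = _ := by ring

/-- multiples of `d` -/
lemma typeII {n Q1 : ℕ} (T : Finset ℕ) (U a d : ℕ) (ha : 1 ≤ a) (han : a ≤ n) (hd : 0 < d)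
    (hT : ∀ v ∈ T, v < U ∧ d ∣ Q1 * v + (Q1 + a)) : (T.card : ℝ) ≤ n * U * (1 / d) + 1 := by
  have hd' : (0 : ℝ) < d := by exact_mod_cast hd
  rcases T.eq_empty_or_nonempty with h | ⟨v0, hv0⟩
  · rw [h, card_empty, Nat.cast_zero]
    positivity
  set g := Nat.gcd d Q1 with hg
  have hgd : g ∣ d := Nat.gcd_dvd_left _ _
  have hgQ : g ∣ Q1 := Nat.gcd_dvd_right _ _
  have hga : g ∣ a := by
    have h1 : g ∣ Q1 * v0 + (Q1 + a) := hgd.trans (hT v0 hv0).2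
    have h2 : g ∣ Q1 * v0 + Q1 := dvd_add (Dvd.dvd.mul_right hgQ _) hgQ
    rw [← add_assoc] at h1
    exact (Nat.dvd_add_right h2).1 h1
  have hgn : g ≤ n := (Nat.le_of_dvd ha hga).trans han
  have hg0 : 0 < g := Nat.gcd_pos_of_pos_left _ hd
  set q := d / g with hq
  have hgq : g * q = d := Nat.mul_div_cancel' hgd
  have hq0 : 0 < q := Nat.pos_of_ne_zero (by rintro h; rw [h] at hgq; omega)
  have hq' : (0 : ℝ) < q := by exact_mod_cast hq0
  have h1 : T ⊆ (range U).filter (fun v => v ≡ v0 [MOD q]) := by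
    intro v hv
    rw [mem_filter, mem_range]
    exact ⟨(hT v hv).1, class_unique hd (hT v hv).2 (hT v0 hv0).2⟩
  have h2 : (T.card : ℝ) ≤ (((range U).filter (fun v => v ≡ v0 [MOD q])).card : ℝ) := by
    exact_mod_cast card_le_card h1
  have h3 := (abs_le.1 (cnt_range U q v0 hq0)).2
  have h4 : (U : ℝ) / q ≤ n * U * (1 / d) := by
    have h2 : (d : ℝ) = g * q := by exact_mod_cast hgq.symm
    have h3 : (g : ℝ) ≤ n := by exact_mod_cast hgn
    have hg' : (0 : ℝ) < g := by exact_mod_cast hg0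
    rw [h2, mul_one_div, div_le_div_iff₀ hq' (by positivity)]
    have hU : (0 : ℝ) ≤ U := Nat.cast_nonneg U
    have : (U : ℝ) * g * q ≤ U * n * q := by
      apply mul_le_mul_of_nonneg_right _ hq'.le
      exact mul_le_mul_of_nonneg_left h3 hU
    linarith
  linarith

/-- multiples of `m` with rough quotient in the sifted set -/
lemma typeIII {C b J2 z0 n Q1 : ℕ} (hC1 : 1 ≤ C) (hS : SV C) (P P2 E : Finset ℕ)
    (hb : C * (n + 1) ≤ b) (hz : C * (n + 1) ≤ z0)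
    (hP2 : ∀ p ∈ P2, p.Prime ∧ z0 < p ∧ p ≤ 2 ^ 2 ^ J2) (hPP : P ⊆ P2)
    (hPQ : ∀ p ∈ P2, ¬ p ∣ Q1) (hE : ∀ a ∈ E, a ≤ n) (hEc : E.card ≤ n) (hn : 1 ≤ n)
    (T : Finset ℕ) (U Qa m : ℕ) (hQa : Qa ∣ Q1) (hm : 0 < m) (hmU : m ≤ U) (hPm : ∀ p ∈ P, ¬ p ∣ m)
    (hT : ∀ v ∈ T, v < U ∧ m ∣ Qa * v + (Qa + 1) ∧
      (∀ p ∈ P, ¬ ∃ a' ∈ E, p ∣ Q1 * v + (Q1 + a')) ∧
      ∀ p ∈ P2 \ P, ¬ m * p ∣ Qa * v + (Qa + 1)) :
    (T.card : ℝ) ≤ 4 * ((U * ∏ p ∈ P, (1 - (E.card : ℝ) / p)) *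
      ∏ p ∈ P2 \ P, (1 - 1 / (p : ℝ))) * (1 / m) + ((2 : ℝ) ^ 2 ^ J2) ^ (C * b) := by
  classical
  have hnz : n ≤ z0 := by
    have : n + 1 ≤ C * (n + 1) := Nat.le_mul_of_pos_left _ (by omega)
    omega
  have hV : 0 ≤ ∏ p ∈ P, (1 - (E.card : ℝ) / p) :=
    prod_nonneg' (κ := n) (ρ := fun _ => E.card) hnz (fun p hp => (hP2 p (hPP hp)).2.1) (fun _ _ => hEc)
  have hW : 0 ≤ ∏ p ∈ P2 \ P, (1 - 1 / (p : ℝ)) := by
    have := prod_nonneg' (κ := n) (P := P2 \ P) (ρ := fun _ => 1) hnz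
      (fun p hp => (hP2 p (mem_sdiff.1 hp).1).2.1) (fun _ _ => hn)
    simpa using this
  have hm' : (0 : ℝ) < m := by exact_mod_cast hm
  rcases T.eq_empty_or_nonempty with h | ⟨v0, hv0⟩
  · rw [h, card_empty, Nat.cast_zero]
    positivity
  have hg : Nat.gcd m Qa = 1 := by
    have h1 : Nat.gcd m Qa ∣ Qa * v0 + (Qa + 1) := (Nat.gcd_dvd_left _ _).trans (hT v0 hv0).2.1
    have h2 : Nat.gcd m Qa ∣ Qa * v0 + Qa :=
      dvd_add (Dvd.dvd.mul_right (Nat.gcd_dvd_right _ _) _) (Nat.gcd_dvd_right _ _)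
    rw [← add_assoc] at h1
    exact Nat.dvd_one.1 ((Nat.dvd_add_right h2).1 h1)
  set r0 := v0 % m with hr0
  have hcl : ∀ v ∈ T, v % m = r0 := by
    intro v hv
    have h1 := class_unique hm (hT v hv).2.1 (hT v0 hv0).2.1
    rw [hg, Nat.div_one] at h1
    exact h1
  have hdL : m ∣ Qa * r0 + (Qa + 1) := (dvd_mod_iff m Qa (Qa + 1) v0).1 (hT v0 hv0).2.1
  obtain ⟨L0, hL0⟩ := hdL
  have hrep : ∀ v ∈ T, m * (v / m) + r0 = v := by
    intro v hv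
    have h3 := Nat.div_add_mod v m
    rwa [hcl v hv] at h3
  have key := sub_upper (κ := n) hC1 hS hb hz hP2
    (fun p y => (p ∈ P ∧ ∃ a' ∈ E, p ∣ (Q1 * m) * y + ((Q1 * r0 + Q1) + a')) ∨
      (p ∉ P ∧ p ∣ Qa * y + L0)) (fun p => if p ∈ P then E.card else 1)
    (by
      intro p _ v
      constructor
      · rintro (⟨h0, a', h1, h2⟩ | ⟨h0, h2⟩)
        · exact Or.inl ⟨h0, a', h1, (dvd_mod_iff _ _ _ _).1 h2⟩
        · exact Or.inr ⟨h0, (dvd_mod_iff _ _ _ _).1 h2⟩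
      · rintro (⟨h0, a', h1, h2⟩ | ⟨h0, h2⟩)
        · exact Or.inl ⟨h0, a', h1, (dvd_mod_iff _ _ _ _).2 h2⟩
        · exact Or.inr ⟨h0, (dvd_mod_iff _ _ _ _).2 h2⟩)
    (by
      intro p hp
      by_cases hpP : p ∈ P
      · simp only [hpP, true_and, not_true_eq_false, false_and, or_false, if_true]
        convert card_hitE (hP2 p hp).1 (Q1 * m) (Q1 * r0 + Q1) (by
          intro h
          rcases (hP2 p hp).1.dvd_mul.1 h with h1 | h1
          · exact hPQ p hp h1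
          · exact hPm p hpP h1) E (by
          intro a' ha'
          have := hE a' ha'
          have := (hP2 p hp).2.1
          omega)
      · simp only [hpP, false_and, not_false_eq_true, true_and, false_or, if_false]
        have h1 := card_hit (hP2 p hp).1 Qa (fun h => hPQ p hp (h.trans hQa)) {L0} (by
          intro β hβ β' hβ' _
          rw [mem_singleton] at hβ hβ'
          rw [hβ, hβ'])
        rw [card_singleton] at h1
        rw [← h1]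
        congr 1
        apply filter_congr
        intro c _
        simp)
    (by
      intro p _
      split_ifs
      · exact hEc
      · exact hn) T m r0 U hm hmU
    (by
      intro v hv
      refine ⟨(hT v hv).1, hcl v hv, ?_⟩
      rintro p hp (⟨h0, a', h1, h2⟩ | ⟨h0, h2⟩)
      · apply (hT v hv).2.2.1 p h0
        refine ⟨a', h1, ?_⟩
        have e : Q1 * v + (Q1 + a') = (Q1 * m) * (v / m) + ((Q1 * r0 + Q1) + a') := by
          calc Q1 * v + (Q1 + a') = Q1 * (m * (v / m) + r0) + (Q1 + a') := by rw [hrep v hv]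
            _ = _ := by ring
        rw [e]
        exact h2
      · apply (hT v hv).2.2.2 p (mem_sdiff.2 ⟨hp, h0⟩)
        have e : Qa * v + (Qa + 1) = m * (Qa * (v / m) + L0) := by
          calc Qa * v + (Qa + 1) = Qa * (m * (v / m) + r0) + (Qa + 1) := by rw [hrep v hv]
            _ = Qa * m * (v / m) + (Qa * r0 + (Qa + 1)) := by ring
            _ = Qa * m * (v / m) + m * L0 := by rw [hL0]
            _ = _ := by ring
        rw [e]
        exact mul_dvd_mul_left m h2)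
  have hprod : ∏ p ∈ P2, (1 - (((if p ∈ P then E.card else 1 : ℕ)) : ℝ) / p) =
      (∏ p ∈ P, (1 - (E.card : ℝ) / p)) * ∏ p ∈ P2 \ P, (1 - 1 / (p : ℝ)) := by
    rw [← prod_sdiff hPP, mul_comm]
    congr 1
    · apply prod_congr rfl
      intro p hp
      rw [if_pos hp]
    · apply prod_congr rfl
      intro p hp
      rw [if_neg (mem_sdiff.1 hp).2, Nat.cast_one]
  rw [hprod] at key
  refine key.trans (add_le_add (le_of_eq ?_) le_rfl)
  ring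

/-- the union bound for one shift -/
lemma perA {C b J J2 z0 n Q1 : ℕ} (hC1 : 1 ≤ C) (hS : SV C) (P P2 E : Finset ℕ)
    (hb : C * (n + 1) ≤ b) (hz : C * (n + 1) ≤ z0)
    (hP : ∀ p ∈ P, p.Prime ∧ z0 < p ∧ p ≤ 2 ^ 2 ^ J)
    (hP2 : ∀ p ∈ P2, p.Prime ∧ z0 < p ∧ p ≤ 2 ^ 2 ^ J2) (hPP : P ⊆ P2)
    (hPQ : ∀ p ∈ P2, ¬ p ∣ Q1) (hE : ∀ a ∈ E, a ≤ n) (hEc : E.card ≤ n) (hn : 1 ≤ n)
    (T : Finset ℕ) (U a Qa : ℕ) (ha : 1 ≤ a) (han : a ≤ n) (hQa : Qa ∣ Q1) (B1 B2 M : Finset ℕ)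
    (hB1 : ∀ d ∈ B1, 0 < d ∧ d ≤ U ∧ ∀ p ∈ P, ¬ p ∣ d) (hB2 : ∀ d ∈ B2, 0 < d)
    (hM : ∀ m ∈ M, 0 < m ∧ m ≤ U ∧ ∀ p ∈ P, ¬ p ∣ m)
    (hT : ∀ v ∈ T, v < U ∧ (∀ p ∈ P, ¬ ∃ a' ∈ E, p ∣ Q1 * v + (Q1 + a')) ∧
      ((∃ d ∈ B1, d ∣ Q1 * v + (Q1 + a)) ∨ (∃ d ∈ B2, d ∣ Q1 * v + (Q1 + a)) ∨
        ∃ m ∈ M, m ∣ Qa * v + (Qa + 1) ∧ ∀ p ∈ P2 \ P, ¬ m * p ∣ Qa * v + (Qa + 1))) :
    (T.card : ℝ) ≤ (4 * n * (U * ∏ p ∈ P, (1 - (E.card : ℝ) / p)) * (∑ d ∈ B1, (1 : ℝ) / d) +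
        B1.card * ((2 : ℝ) ^ 2 ^ J) ^ (C * b)) +
      (n * U * (∑ d ∈ B2, (1 : ℝ) / d) + B2.card) +
      (4 * ((U * ∏ p ∈ P, (1 - (E.card : ℝ) / p)) *
        ∏ p ∈ P2 \ P, (1 - 1 / (p : ℝ))) * (∑ m ∈ M, (1 : ℝ) / m) +
        M.card * ((2 : ℝ) ^ 2 ^ J2) ^ (C * b)) := by
  classical
  set F1 : ℕ → Finset ℕ := fun d => T.filter (fun v => d ∣ Q1 * v + (Q1 + a)) with hF1
  set F3 : ℕ → Finset ℕ := fun m => T.filter (fun v => m ∣ Qa * v + (Qa + 1) ∧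
    ∀ p ∈ P2 \ P, ¬ m * p ∣ Qa * v + (Qa + 1)) with hF3
  have hsub : T ⊆ (B1.biUnion F1 ∪ B2.biUnion F1) ∪ M.biUnion F3 := by
    intro v hv
    rw [mem_union, mem_union, mem_biUnion, mem_biUnion, mem_biUnion]
    rcases (hT v hv).2.2 with ⟨d, h1, h2⟩ | ⟨d, h1, h2⟩ | ⟨m, h1, h2, h3⟩
    · exact Or.inl (Or.inl ⟨d, h1, mem_filter.2 ⟨hv, h2⟩⟩)
    · exact Or.inl (Or.inr ⟨d, h1, mem_filter.2 ⟨hv, h2⟩⟩)
    · exact Or.inr ⟨m, h1, mem_filter.2 ⟨hv, h2, h3⟩⟩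
  have hc : T.card ≤ ((∑ d ∈ B1, (F1 d).card) + ∑ d ∈ B2, (F1 d).card) + ∑ m ∈ M, (F3 m).card :=
    (card_le_card hsub).trans ((card_union_le _ _).trans (add_le_add
      ((card_union_le _ _).trans (add_le_add card_biUnion_le card_biUnion_le)) card_biUnion_le))
  have hc' : (T.card : ℝ) ≤ ((∑ d ∈ B1, ((F1 d).card : ℝ)) + ∑ d ∈ B2, ((F1 d).card : ℝ)) +
      ∑ m ∈ M, ((F3 m).card : ℝ) := by exact_mod_cast hc
  refine hc'.trans (add_le_add (add_le_add ?_ ?_) ?_)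
  · calc ∑ d ∈ B1, ((F1 d).card : ℝ)
        ≤ ∑ d ∈ B1, (4 * n * (U * ∏ p ∈ P, (1 - (E.card : ℝ) / p)) * (1 / d) +
            ((2 : ℝ) ^ 2 ^ J) ^ (C * b)) := by
          apply sum_le_sum
          intro d hd
          apply typeI hC1 hS P E hb hz hP (fun p hp => hPQ p (hPP hp)) hE hEc (F1 d) U a d ha han
            (hB1 d hd).1 (hB1 d hd).2.1 (hB1 d hd).2.2
          intro v hv
          rw [hF1, mem_filter] at hv
          exact ⟨(hT v hv.1).1, hv.2, (hT v hv.1).2.1⟩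
      _ = _ := by rw [sum_add_distrib, ← mul_sum, sum_const, nsmul_eq_mul]
  · calc ∑ d ∈ B2, ((F1 d).card : ℝ) ≤ ∑ d ∈ B2, (n * U * (1 / (d : ℝ)) + 1) := by
          apply sum_le_sum
          intro d hd
          apply typeII (F1 d) U a d ha han (hB2 d hd)
          intro v hv
          rw [hF1, mem_filter] at hv
          exact ⟨(hT v hv.1).1, hv.2⟩
      _ = _ := by rw [sum_add_distrib, ← mul_sum, sum_const, nsmul_eq_mul, mul_one]
  · calc ∑ m ∈ M, ((F3 m).card : ℝ)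
        ≤ ∑ m ∈ M, (4 * ((U * ∏ p ∈ P, (1 - (E.card : ℝ) / p)) *
            ∏ p ∈ P2 \ P, (1 - 1 / (p : ℝ))) * (1 / m) + ((2 : ℝ) ^ 2 ^ J2) ^ (C * b)) := by
          apply sum_le_sum
          intro m hm
          apply typeIII hC1 hS P P2 E hb hz hP2 hPP hPQ hE hEc hn (F3 m) U Qa m hQa
            (hM m hm).1 (hM m hm).2.1 (hM m hm).2.2
          intro v hv
          rw [hF3, mem_filter] at hv
          exact ⟨(hT v hv.1).1, hv.2.1, (hT v hv.1).2.1, hv.2.2⟩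
      _ = _ := by rw [sum_add_distrib, ← mul_sum, sum_const, nsmul_eq_mul]

end Pool.Agent.TH847.TP
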