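import Pool.Agent.TH847.TP.Def
import Pool.Agent.Helper256.KM.Mertens

/-!
Consequences of the window theorem.
-/

set_option autoImplicit false

open Finset

namespace Pool.Agent.TH847.TP

/-- the window theorem for `n`, with parameters -/
def WT (n s K : ℕ) (ε : ℝ) : Prop := ∀ B : Set ℕ, PairCop B → ∀ x : ℕ, K ≤ x →
  SB B (x ^ s) - SB B x ≤ ε → ∃ t : ℕ, t ≤ x ^ s ∧ Transl (AB B) n t

lemma SB_sub (B : Set ℕ) (x y : ℕ) (hxy : x ≤ y) (W : Finset ℕ)
    (hW : ∀ b, b ∈ W ↔ b ∈ B ∧ x ≤ b ∧ b < y) : ∑ b ∈ W, (1 : ℝ) / b = SB B y - SB B x := by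
  classical
  unfold SB
  rw [eq_sub_iff_add_eq, ← sum_union]
  · apply sum_congr _ (fun _ _ => rfl)
    ext b
    rw [mem_union, hW, mem_filter, mem_filter, mem_range, mem_range]
    constructor
    · rintro (⟨h1, h2, h3⟩ | ⟨h1, h2⟩)
      · exact ⟨h3, h1⟩
      · exact ⟨by omega, h2⟩
    · rintro ⟨h1, h2⟩
      by_cases h : x ≤ b
      · exact Or.inl ⟨h2, h, h1⟩
      · exact Or.inr ⟨by omega, h2⟩
  · rw [disjoint_left]
    intro b hb hb'
    rw [hW] at hb
    rw [mem_filter, mem_range] at hb'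
    omega

lemma SB_nonneg (B : Set ℕ) (x : ℕ) : 0 ≤ SB B x := by
  unfold SB
  exact sum_nonneg fun _ _ => by positivity

lemma SB_mono (B : Set ℕ) {x y : ℕ} (h : x ≤ y) : SB B x ≤ SB B y := by
  classical
  unfold SB
  apply sum_le_sum_of_subset_of_nonneg
  · intro b hb
    rw [mem_filter, mem_range] at hb ⊢
    exact ⟨by omega, hb.2⟩
  · intro _ _ _
    positivity

/-- small mass in comparison with `log log x` at one point -/
theorem loglog_of_window (n s K : ℕ) (ε : ℝ) (hs : 2 ≤ s) (hε : 0 < ε) (h : WT n s K ε) :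
    ∃ c : ℝ, 0 < c ∧ ∃ K' : ℕ, ∀ B : Set ℕ, PairCop B → ∀ x : ℕ, K' ≤ x →
      SB B x ≤ c * Real.log (Real.log x) → ∃ t : ℕ, t ≤ x ∧ Transl (AB B) n t := by
  set L := max K 3 with hL
  have hL3 : 3 ≤ L := le_max_right _ _
  have hLK : K ≤ L := le_max_left _ _
  have hs' : (2 : ℝ) ≤ s := by exact_mod_cast hs
  have hlogs : 0 < Real.log s := Real.log_pos (by linarith)
  have hL' : (3 : ℝ) ≤ L := by exact_mod_cast hL3
  have hlogL : 1 < Real.log L := by
    have h1 : Real.exp 1 < 3 := by
      have := Real.exp_one_lt_d9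
      linarith
    rw [Real.lt_log_iff_exp_lt (by linarith)]
    linarith
  obtain ⟨I0, hI0⟩ := exists_nat_ge (Real.log (Real.log L) / Real.log s)
  refine ⟨ε / (3 * Real.log s), by positivity, L ^ s ^ (I0 + 1), fun B hB x hx hS => ?_⟩
  have hex : ∃ I : ℕ, x < L ^ s ^ I := by
    refine ⟨x, ?_⟩
    have h1 : x < s ^ x := Nat.lt_pow_self (by omega)
    have h2 : s ^ x < L ^ s ^ x := Nat.lt_pow_self (by omega)
    omega
  classical
  set I' := Nat.find hex with hI'
  have hspec : x < L ^ s ^ I' := Nat.find_spec hex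
  have hI'1 : I0 + 1 < I' := by
    by_contra hcon
    have h1 : L ^ s ^ I' ≤ L ^ s ^ (I0 + 1) :=
      Nat.pow_le_pow_right (by omega) (Nat.pow_le_pow_right (by omega) (by omega))
    omega
  obtain ⟨I, hI⟩ : ∃ I, I' = I + 1 := ⟨I' - 1, by omega⟩
  have hIx : L ^ s ^ I ≤ x := by
    have := Nat.find_min hex (show I < Nat.find hex by omega)
    omega
  have hx3 : 3 ≤ x := by
    have h1 : L ≤ L ^ s ^ (I0 + 1) := Nat.le_self_pow (by positivity) L
    omega
  have hx' : (3 : ℝ) ≤ x := by exact_mod_cast hx3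
  have hlogx : 1 < Real.log x := by
    have h1 : Real.exp 1 < 3 := by
      have := Real.exp_one_lt_d9
      linarith
    rw [Real.lt_log_iff_exp_lt (by linarith)]
    linarith
  have hll : Real.log (Real.log x) ≤ 3 * I * Real.log s := by
    have h1 : Real.log x ≤ (s : ℝ) ^ (I + 1) * Real.log L := by
      have h2 : (x : ℝ) ≤ (L : ℝ) ^ s ^ (I + 1) := by
        rw [hI] at hspec
        exact_mod_cast hspec.le
      calc Real.log x ≤ Real.log ((L : ℝ) ^ s ^ (I + 1)) := Real.log_le_log (by linarith) h2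
        _ = (s : ℝ) ^ (I + 1) * Real.log L := by rw [Real.log_pow]; push_cast; rfl
    have h2 : Real.log (Real.log x) ≤ (I + 1 : ℕ) * Real.log s + Real.log (Real.log L) := by
      calc Real.log (Real.log x) ≤ Real.log ((s : ℝ) ^ (I + 1) * Real.log L) :=
            Real.log_le_log (by linarith) h1
        _ = _ := by rw [Real.log_mul (by positivity) (by linarith), Real.log_pow]
    rw [div_le_iff₀ hlogs] at hI0
    have h3 : ((I0 + 1 : ℕ) : ℝ) ≤ I := by exact_mod_cast (show I0 + 1 ≤ I by omega)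
    have h4 : (I0 : ℝ) * Real.log s ≤ (I - 1) * Real.log s := by
      apply mul_le_mul_of_nonneg_right _ hlogs.le
      push_cast at h3
      linarith
    have h5 : (1 : ℝ) ≤ I := by
      have : (0 : ℝ) ≤ I0 := Nat.cast_nonneg _
      push_cast at h3
      linarith
    push_cast at h2
    have h6 : 0 ≤ (I : ℝ) * Real.log s := by positivity
    have h7 : (1 : ℝ) * Real.log s ≤ I * Real.log s := mul_le_mul_of_nonneg_right h5 hlogs.le
    linarith
  have hsum : ∑ i ∈ range I, (SB B (L ^ s ^ (i + 1)) - SB B (L ^ s ^ i)) ≤ ∑ _i ∈ range I, ε := by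
    rw [sum_range_sub (fun i => SB B (L ^ s ^ i)), sum_const, card_range, nsmul_eq_mul]
    have h1 := SB_nonneg B (L ^ s ^ 0)
    have h2 := SB_mono B hIx
    have h3 : ε / (3 * Real.log s) * Real.log (Real.log x) ≤ I * ε := by
      calc ε / (3 * Real.log s) * Real.log (Real.log x)
          ≤ ε / (3 * Real.log s) * (3 * I * Real.log s) :=
            mul_le_mul_of_nonneg_left hll (by positivity)
        _ = I * ε := by field_simp
    linarith
  obtain ⟨i, hi, hle⟩ := exists_le_of_sum_le (nonempty_range_iff.2 (by omega)) hsum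
  rw [mem_range] at hi
  have hpow : L ^ s ^ (i + 1) = (L ^ s ^ i) ^ s := by rw [pow_succ s i, pow_mul]
  rw [hpow] at hle
  obtain ⟨t, ht1, ht2⟩ := h B hB (L ^ s ^ i) (hLK.trans (Nat.le_self_pow (by positivity) L)) hle
  refine ⟨t, ht1.trans ?_, ht2⟩
  rw [← hpow]
  exact (Nat.pow_le_pow_right (by omega) (Nat.pow_le_pow_right (by omega) (by omega))).trans hIx

/-- sets of almost all primes with the translation property -/
theorem pos_of_window (h : ∀ n : ℕ, 1 ≤ n → ∃ s K : ℕ, 2 ≤ s ∧ ∃ ε : ℝ, 0 < ε ∧ WT n s K ε)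
    (f : ℕ → ℝ) (hf : Filter.Tendsto f Filter.atTop Filter.atTop) :
    ∃ B : Set ℕ, (∀ b ∈ B, b.Prime) ∧ TransProp (AB B) ∧
      ∃ X0 : ℕ, ∀ x : ℕ, X0 ≤ x → Real.log (Real.log x) - f x ≤ SB B x := by
  classical
  obtain ⟨C0, hC0⟩ := Pool.Agent.Helper256.KM.mertens_inv
  -- the windows
  have h' : ∀ n : ℕ, ∃ s K : ℕ, 2 ≤ s ∧ ∃ ε : ℝ, 0 < ε ∧ (1 ≤ n → WT n s K ε) := by
    intro n
    by_cases hn : 1 ≤ n
    · obtain ⟨s, K, h1, ε, h2, h3⟩ := h n hn
      exact ⟨s, K, h1, ε, h2, fun _ => h3⟩
    · exact ⟨2, 0, le_rfl, 1, one_pos, fun h => absurd h hn⟩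
  choose s K hs ε hε hWT using h'
  set m : ℕ → ℝ := fun n => Real.log (s n) + 2 * C0 + 1 with hm
  have hC00 : 0 ≤ C0 := (abs_nonneg _).trans (hC0 3 le_rfl)
  have hm0 : ∀ n, 0 ≤ m n := fun n => by
    have : (2 : ℝ) ≤ s n := by exact_mod_cast hs n
    have := Real.log_nonneg (show (1 : ℝ) ≤ s n by linarith)
    simp only [hm]
    linarith
  have hX : ∀ n : ℕ, ∃ X : ℕ, 3 ≤ X ∧ K n ≤ X ∧ n < X ∧
      ∀ x : ℕ, X ≤ x → C0 + 1 + ∑ i ∈ range (n + 1), m i ≤ f x := by
    intro n
    obtain ⟨X, hX⟩ := Filter.eventually_atTop.1 (hf.eventually_ge_atTop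
      (C0 + 1 + ∑ i ∈ range (n + 1), m i))
    exact ⟨X + 3 + K n + n + 1, by omega, by omega, by omega, fun x hx => hX x (by omega)⟩
  choose X hX3 hXK hXn hXf using hX
  obtain ⟨B, hB⟩ : ∃ B : Set ℕ, ∀ p : ℕ, p ∈ B ↔ p.Prime ∧ ∀ n, ¬ (X n ≤ p ∧ p < X n ^ s n) :=
    ⟨{p : ℕ | p.Prime ∧ ∀ n, ¬ (X n ≤ p ∧ p < X n ^ s n)}, fun p => Iff.rfl⟩
  have hBp : ∀ b ∈ B, b.Prime := fun b hb => ((hB b).1 hb).1
  have hPC : PairCop B := ⟨fun b hb => (hBp b hb).one_lt.le, fun b hb b' hb' hne =>
    (Nat.coprime_primes (hBp b hb) (hBp b' hb')).2 hne⟩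
  refine ⟨B, hBp, ?_, X 0 + 3, ?_⟩
  · intro n hn
    have hle : X n ≤ X n ^ s n := Nat.le_self_pow (by have := hs n; omega) _
    have h1 : SB B (X n ^ s n) - SB B (X n) ≤ ε n := by
      rw [← SB_sub B (X n) (X n ^ s n) hle ∅ (by
        intro b
        constructor
        · intro hb
          exact absurd hb (notMem_empty b)
        · rintro ⟨h1, h2, h3⟩
          exact absurd ⟨h2, h3⟩ (((hB b).1 h1).2 n)), sum_empty]
      exact (hε n).le
    obtain ⟨t, _, ht⟩ := hWT n hn B hPC (X n) (hXK n) h1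
    exact ⟨t, ht⟩
  · intro x hx
    have hx3 : 3 ≤ x := by omega
    set W : ℕ → Finset ℕ := fun n => (range (X n ^ s n)).filter (fun p => p.Prime ∧ X n ≤ p) with hW
    -- the mass of a window
    have hmass : ∀ n, ∑ p ∈ W n, (1 : ℝ) / p ≤ m n := by
      intro n
      have hXs : X n ≤ X n ^ s n := Nat.le_self_pow (by have := hs n; omega) _
      have hX0 : (3 : ℝ) ≤ X n := by exact_mod_cast hX3 n
      have h1 : ∑ p ∈ W n, (1 : ℝ) / p ≤ (∑ p ∈ (Icc 1 (X n ^ s n)).filter Nat.Prime \
          (Icc 1 (X n)).filter Nat.Prime, (1 : ℝ) / p) + 1 / (X n : ℝ) := by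
        have hsub : W n ⊆ insert (X n) ((Icc 1 (X n ^ s n)).filter Nat.Prime \
            (Icc 1 (X n)).filter Nat.Prime) := by
          intro p hp
          rw [hW, mem_filter, mem_range] at hp
          rw [mem_insert, mem_sdiff, mem_filter, mem_filter, mem_Icc, mem_Icc]
          rcases Nat.eq_or_lt_of_le hp.2.2 with h | h
          · exact Or.inl h.symm
          · exact Or.inr ⟨⟨⟨hp.2.1.one_lt.le, hp.1.le⟩, hp.2.1⟩, fun h2 => by omega⟩
        calc ∑ p ∈ W n, (1 : ℝ) / p ≤ ∑ p ∈ insert (X n) ((Icc 1 (X n ^ s n)).filter Nat.Prime \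
              (Icc 1 (X n)).filter Nat.Prime), (1 : ℝ) / p :=
              sum_le_sum_of_subset_of_nonneg hsub fun _ _ _ => by positivity
          _ = _ := by
              rw [sum_insert, add_comm]
              intro hmem
              rw [mem_sdiff, mem_filter, mem_filter, mem_Icc, mem_Icc] at hmem
              exact hmem.2 ⟨⟨hmem.1.1.1, le_rfl⟩, hmem.1.2⟩
      have h2 : (∑ p ∈ (Icc 1 (X n ^ s n)).filter Nat.Prime \ (Icc 1 (X n)).filter Nat.Prime, (1 : ℝ) / p) +
          ∑ p ∈ (Icc 1 (X n)).filter Nat.Prime, (1 : ℝ) / p =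
          ∑ p ∈ (Icc 1 (X n ^ s n)).filter Nat.Prime, (1 : ℝ) / p :=
        sum_sdiff (filter_subset_filter _ (Icc_subset_Icc le_rfl hXs))
      have h3 := (abs_le.1 (hC0 (X n ^ s n) ((hX3 n).trans hXs))).2
      have h4 := (abs_le.1 (hC0 (X n) (hX3 n))).1
      have h5 : Real.log (Real.log ((X n ^ s n : ℕ) : ℝ)) = Real.log (s n) + Real.log (Real.log (X n)) := by
        push_cast
        rw [Real.log_pow, Real.log_mul]
        · have := hs n
          exact_mod_cast (show s n ≠ 0 by omega)
        · exact (Real.log_pos (by linarith)).ne'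
      have h6 : 1 / (X n : ℝ) ≤ 1 := by
        rw [div_le_one (by linarith)]
        linarith
      rw [h5] at h3
      simp only [hm]
      linarith
    -- the windows that begin below `x`
    set T := (range x).filter (fun n => X n < x) with hT
    have h0T : 0 ∈ T := by
      rw [hT, mem_filter, mem_range]
      exact ⟨by omega, by omega⟩
    obtain ⟨N, hNT, hNmax⟩ := exists_max_image T id ⟨0, h0T⟩
    have hTs : ∑ n ∈ T, m n ≤ ∑ n ∈ range (N + 1), m n := by
      apply sum_le_sum_of_subset_of_nonneg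
      · intro n hn
        rw [mem_range]
        have := hNmax n hn
        simp only [id] at this
        omega
      · intro n _ _
        exact hm0 n
    have hNx : X N ≤ x := by
      rw [hT, mem_filter] at hNT
      exact hNT.2.le
    have hfx := hXf N x hNx
    have hA : ∑ p ∈ (range x).filter Nat.Prime, (1 : ℝ) / p ≤ SB B x + ∑ n ∈ T, ∑ p ∈ W n, (1 : ℝ) / p := by
      rw [← sum_filter_add_sum_filter_not ((range x).filter Nat.Prime) (fun p => p ∈ B)]
      apply add_le_add
      · unfold SB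
        apply sum_le_sum_of_subset_of_nonneg
        · intro p hp
          have h1 := mem_filter.1 hp
          exact mem_filter.2 ⟨(mem_filter.1 h1.1).1, h1.2⟩
        · intro _ _ _
          positivity
      · calc ∑ p ∈ ((range x).filter Nat.Prime).filter (fun p => p ∉ B), (1 : ℝ) / p
            ≤ ∑ p ∈ ((range x).filter Nat.Prime).filter (fun p => p ∉ B),
                ∑ n ∈ T, (if p ∈ W n then (1 : ℝ) / p else 0) := by
              apply sum_le_sum
              intro p hp
              rw [mem_filter, mem_filter, mem_range] at hp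
              have h1 : ∃ n, X n ≤ p ∧ p < X n ^ s n := by
                by_contra hcon
                apply hp.2
                rw [hB]
                exact ⟨hp.1.2, fun n hn => hcon ⟨n, hn⟩⟩
              obtain ⟨n, hn1, hn2⟩ := h1
              have hnT : n ∈ T := by
                rw [hT, mem_filter, mem_range]
                have := hXn n
                exact ⟨by omega, by omega⟩
              have hpW : p ∈ W n := by
                rw [hW, mem_filter, mem_range]
                exact ⟨hn2, hp.1.2, hn1⟩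
              calc (1 : ℝ) / p = if p ∈ W n then (1 : ℝ) / p else 0 := by rw [if_pos hpW]
                _ ≤ _ := single_le_sum (f := fun n => if p ∈ W n then (1 : ℝ) / p else 0)
                    (fun n _ => by
                      show 0 ≤ if p ∈ W n then (1 : ℝ) / p else 0
                      split_ifs <;> positivity) hnT
          _ = ∑ n ∈ T, ∑ p ∈ ((range x).filter Nat.Prime).filter (fun p => p ∉ B),
                (if p ∈ W n then (1 : ℝ) / p else 0) := sum_comm
          _ ≤ ∑ n ∈ T, ∑ p ∈ W n, (1 : ℝ) / p := by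
              apply sum_le_sum
              intro n _
              rw [← sum_filter]
              apply sum_le_sum_of_subset_of_nonneg
              · intro p hp
                exact (mem_filter.1 hp).2
              · intro _ _ _
                positivity
    have hB2 : ∑ n ∈ T, ∑ p ∈ W n, (1 : ℝ) / p ≤ ∑ n ∈ T, m n := sum_le_sum fun n _ => hmass n
    have hC : ∑ p ∈ (Icc 1 x).filter Nat.Prime, (1 : ℝ) / p ≤
        (∑ p ∈ (range x).filter Nat.Prime, (1 : ℝ) / p) + 1 := by
      have hsub : (Icc 1 x).filter Nat.Prime ⊆ insert x ((range x).filter Nat.Prime) := by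
        intro p hp
        rw [mem_filter, mem_Icc] at hp
        rw [mem_insert, mem_filter, mem_range]
        rcases Nat.eq_or_lt_of_le hp.1.2 with h | h
        · exact Or.inl h
        · exact Or.inr ⟨h, hp.2⟩
      have h1 : (1 : ℝ) / x ≤ 1 := by
        have : (3 : ℝ) ≤ x := by exact_mod_cast hx3
        rw [div_le_one (by linarith)]
        linarith
      calc ∑ p ∈ (Icc 1 x).filter Nat.Prime, (1 : ℝ) / p
          ≤ ∑ p ∈ insert x ((range x).filter Nat.Prime), (1 : ℝ) / p :=
            sum_le_sum_of_subset_of_nonneg hsub fun _ _ _ => by positivity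
        _ = 1 / (x : ℝ) + ∑ p ∈ (range x).filter Nat.Prime, (1 : ℝ) / p := by
            rw [sum_insert]
            intro hmem
            rw [mem_filter, mem_range] at hmem
            omega
        _ ≤ _ := by linarith
    have h9 := (abs_le.1 (hC0 x hx3)).1
    linarith

end Pool.Agent.TH847.TP
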