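import Pool.Agent.TH847.TP.Def
import Pool.Agent.Helper256.KM.Mertens

/-!
All primes outside a finite set: no translation property.
-/

set_option autoImplicit false

open Finset

namespace Pool.Agent.TH847.TP

lemma prime_pow_of_smooth (F : Finset ℕ) (hF : F.Nonempty) (N : ℕ) (hN : 0 < N)
    (h : ∀ p : ℕ, p.Prime → p ∣ N → p ∈ F) : ∃ p ∈ F, N ≤ (p ^ N.factorization p) ^ F.card := by
  obtain ⟨p, hp, hmax⟩ := exists_max_image F (fun p => p ^ N.factorization p) hF
  refine ⟨p, hp, ?_⟩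
  have h1 : ∏ q ∈ F, q ^ N.factorization q = N := by
    have h2 := Nat.prod_factorization_pow_eq_self hN.ne'
    conv_rhs => rw [← h2]
    rw [Finsupp.prod]
    symm
    apply prod_subset
    · intro q hq
      rw [Nat.support_factorization, Nat.mem_primeFactors] at hq
      exact h q hq.1 hq.2.1
    · intro q _ hq
      rw [Finsupp.notMem_support_iff.1 hq, pow_zero]
  calc N = ∏ q ∈ F, q ^ N.factorization q := h1.symm
    _ ≤ ∏ _q ∈ F, p ^ N.factorization p := prod_le_prod' hmax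
    _ = (p ^ N.factorization p) ^ F.card := by rw [prod_const]

/-- the set of the primes outside a finite set -/
def coF (F : Finset ℕ) : Set ℕ := {p : ℕ | p.Prime ∧ p ∉ F}

lemma mem_AB_coF (F : Finset ℕ) (m : ℕ) :
    m ∈ AB (coF F) ↔ 1 ≤ m ∧ ∀ p : ℕ, p.Prime → p ∣ m → p ∈ F := by
  unfold AB coF
  rw [Set.mem_setOf_eq]
  apply and_congr_right
  intro _
  constructor
  · intro h p hp hd
    by_contra hF
    exact h p ⟨hp, hF⟩ hd
  · rintro h p ⟨hp, hF⟩ hd
    exact hF (h p hp hd)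

/-- translations are short -/
lemma transl_short (F : Finset ℕ) (hF : ∀ p ∈ F, p.Prime) (p0 : ℕ) (hp0 : p0 ∈ F) (n t : ℕ)
    (hn : p0 ^ F.card ≤ n) (ht : Transl (AB (coF F)) n t) : t ≤ (p0 ^ F.card) ^ F.card := by
  classical
  set r := F.card with hr
  have hp0' := hF p0 hp0
  have hA : ∀ i, p0 ^ i ∈ AB (coF F) := by
    intro i
    rw [mem_AB_coF]
    refine ⟨Nat.one_le_pow _ _ hp0'.pos, fun p hp hd => ?_⟩
    have := (Nat.prime_dvd_prime_iff_eq hp hp0').1 (hp.dvd_of_dvd_pow hd)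
    rw [this]
    exact hp0
  have hA2 : ∀ i ∈ range (r + 1), p0 ^ i + t ∈ AB (coF F) := by
    intro i hi
    rw [mem_range] at hi
    apply (ht.2 _ (Nat.one_le_pow _ _ hp0'.pos) _).1 (hA i)
    exact (Nat.pow_le_pow_right hp0'.pos (by omega)).trans hn
  have hch : ∀ i ∈ range (r + 1), ∃ p ∈ F, p0 ^ i + t ≤ (p ^ (p0 ^ i + t).factorization p) ^ r := by
    intro i hi
    have h1 := (mem_AB_coF F _).1 (hA2 i hi)
    exact prime_pow_of_smooth F ⟨p0, hp0⟩ _ (by omega) h1.2
  choose! P hPF hPle using hch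
  obtain ⟨i, hi, j, hj, hij, he⟩ := exists_ne_map_eq_of_card_lt_of_maps_to
    (s := range (r + 1)) (t := F) (by rw [card_range]; omega) (f := P) hPF
  have key : ∀ i j, i ∈ range (r + 1) → j ∈ range (r + 1) → i ≠ j → P i = P j →
      (P i) ^ (p0 ^ i + t).factorization (P i) ≤ (P j) ^ (p0 ^ j + t).factorization (P j) →
      t ≤ (p0 ^ r) ^ r := by
    intro i j hi hj hij he hle
    set q := P i with hq
    have hqp : q.Prime := hF q (hPF i hi)
    rw [← he] at hle
    have h1 : q ^ (p0 ^ i + t).factorization q ∣ p0 ^ i + t := Nat.ordProj_dvd _ _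
    have h2 : q ^ (p0 ^ i + t).factorization q ∣ p0 ^ j + t := by
      refine (Nat.pow_dvd_pow q ?_).trans (Nat.ordProj_dvd (p0 ^ j + t) q)
      exact (Nat.pow_le_pow_iff_right hqp.one_lt).1 hle
    have h3 : q ^ (p0 ^ i + t).factorization q ≤ p0 ^ r := by
      have hne : p0 ^ i ≠ p0 ^ j := fun h => hij (Nat.pow_right_injective hp0'.two_le h)
      have hb : ∀ i ∈ range (r + 1), p0 ^ i ≤ p0 ^ r := fun i hi =>
        Nat.pow_le_pow_right hp0'.pos (by rw [mem_range] at hi; omega)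
      rcases Nat.lt_or_gt_of_ne hne with hlt | hlt
      · have h4 := Nat.dvd_sub h2 h1
        rw [Nat.add_sub_add_right] at h4
        exact (Nat.le_of_dvd (by omega) h4).trans ((Nat.sub_le _ _).trans (hb j hj))
      · have h4 := Nat.dvd_sub h1 h2
        rw [Nat.add_sub_add_right] at h4
        exact (Nat.le_of_dvd (by omega) h4).trans ((Nat.sub_le _ _).trans (hb i hi))
    calc t ≤ p0 ^ i + t := Nat.le_add_left _ _
      _ ≤ (q ^ (p0 ^ i + t).factorization q) ^ r := hPle i hi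
      _ ≤ (p0 ^ r) ^ r := Nat.pow_le_pow_left h3 r
  rcases Nat.le_total ((P i) ^ (p0 ^ i + t).factorization (P i))
    ((P j) ^ (p0 ^ j + t).factorization (P j)) with hle | hle
  · exact key i j hi hj hij he hle
  · exact key j i hj hi (Ne.symm hij) he.symm hle

/-- the integers composed of the primes of a finite set do not have the translation property -/
theorem no_transl (F : Finset ℕ) (hF : ∀ p ∈ F, p.Prime) : ¬ TransProp (AB (coF F)) := by
  intro h
  rcases F.eq_empty_or_nonempty with hE | ⟨p0, hp0⟩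
  · obtain ⟨t, ht1, ht⟩ := h 1 le_rfl
    have h1 : (1 : ℕ) ∈ AB (coF F) := by
      rw [mem_AB_coF]
      refine ⟨le_rfl, fun p hp hd => ?_⟩
      exact absurd (Nat.dvd_one.1 hd) hp.one_lt.ne'
    have h2 := ((mem_AB_coF F _).1 ((ht 1 le_rfl le_rfl).1 h1)).2
    have h3 := h2 (1 + t).minFac (Nat.minFac_prime (by omega)) (Nat.minFac_dvd _)
    rw [hE] at h3
    exact notMem_empty _ h3
  set Pf := ∏ p ∈ F, p with hPf
  have hPfpos : 0 < Pf := prod_pos fun p hp => (hF p hp).pos
  set T := (p0 ^ F.card) ^ F.card with hT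
  have hTpos : 0 < T := pow_pos (pow_pos (hF p0 hp0).pos _) _
  obtain ⟨t, htr⟩ := h (p0 ^ F.card + T * Pf + 1) (by omega)
  have hle := transl_short F hF p0 hp0 _ t (by omega) htr
  obtain ⟨ht1, ht⟩ := htr
  have h1 : (1 : ℕ) ∈ AB (coF F) := by
    rw [mem_AB_coF]
    refine ⟨le_rfl, fun p hp hd => ?_⟩
    exact absurd (Nat.dvd_one.1 hd) hp.one_lt.ne'
  have hk : ∀ k, k ≤ Pf → 1 + k * t ∈ AB (coF F) := by
    intro k
    induction k with
    | zero => intro _; simpa using h1
    | succ k ih =>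
      intro hk
      have h2 := ih (by omega)
      have h3 : 1 + k * t ≤ p0 ^ F.card + T * Pf + 1 := by
        have : k * t ≤ Pf * T := Nat.mul_le_mul (by omega) hle
        rw [mul_comm Pf T] at this
        omega
      have h4 := (ht (1 + k * t) (by omega) h3).1 h2
      rw [show 1 + (k + 1) * t = 1 + k * t + t by ring]
      exact h4
  have h2 := ((mem_AB_coF F _).1 (hk Pf le_rfl)).2
  have h3 : 1 + Pf * t ≠ 1 := by
    have : 0 < Pf * t := Nat.mul_pos hPfpos ht1
    omega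
  have h4 := Nat.minFac_prime h3
  have h5 := h2 (1 + Pf * t).minFac h4 (Nat.minFac_dvd _)
  have h6 : (1 + Pf * t).minFac ∣ Pf * t := (dvd_prod_of_mem (fun p => p) h5).mul_right t
  have h7 := (Nat.dvd_add_left h6).1 (Nat.minFac_dvd (1 + Pf * t))
  exact h4.one_lt.ne' (Nat.dvd_one.1 h7)

lemma pairCop_coF (F : Finset ℕ) : PairCop (coF F) := by
  refine ⟨fun b hb => hb.1.one_lt.le, fun b hb b' hb' hne => ?_⟩
  exact (Nat.coprime_primes hb.1 hb'.1).2 hne

/-- a bound `log log x - C` does not give the translation property -/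
theorem neg (C : ℝ) : ∃ F : Finset ℕ, (∀ p ∈ F, p.Prime) ∧ ¬ TransProp (AB (coF F)) ∧
    ∃ X0 : ℕ, ∀ x : ℕ, X0 ≤ x → SB (coF F) x ≤ Real.log (Real.log x) - C := by
  classical
  obtain ⟨C0, hC0⟩ := Pool.Agent.Helper256.KM.mertens_inv
  -- a finite set of primes with large mass
  have hdiv : ∃ N : ℕ, 3 ≤ N ∧ C + C0 ≤ ∑ p ∈ (Icc 1 N).filter Nat.Prime, (1 : ℝ) / p := by
    have h1 : Filter.Tendsto (fun N : ℕ => Real.log (Real.log (N : ℝ))) Filter.atTop Filter.atTop :=
      Real.tendsto_log_atTop.comp (Real.tendsto_log_atTop.comp tendsto_natCast_atTop_atTop)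
    obtain ⟨N, hN⟩ := ((h1.eventually_ge_atTop (C + C0 + C0)).and (Filter.eventually_ge_atTop 3)).exists
    refine ⟨N, hN.2, ?_⟩
    have h2 := (abs_le.1 (hC0 N hN.2)).1
    linarith [hN.1]
  obtain ⟨N, hN3, hN⟩ := hdiv
  set F := (Icc 1 N).filter Nat.Prime with hF
  have hFp : ∀ p ∈ F, p.Prime := fun p hp => (mem_filter.1 hp).2
  refine ⟨F, hFp, no_transl F hFp, N + 1, fun x hx => ?_⟩
  have h1 : SB (coF F) x + ∑ p ∈ F, (1 : ℝ) / p ≤ ∑ p ∈ (Icc 1 x).filter Nat.Prime, (1 : ℝ) / p := by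
    unfold SB
    rw [← sum_union]
    · apply sum_le_sum_of_subset_of_nonneg
      · intro p hp
        rw [mem_union, mem_filter, mem_range] at hp
        rw [mem_filter, mem_Icc]
        rcases hp with ⟨h2, h3⟩ | h2
        · exact ⟨⟨h3.1.one_lt.le, h2.le⟩, h3.1⟩
        · rw [hF, mem_filter, mem_Icc] at h2
          exact ⟨⟨h2.1.1, by omega⟩, h2.2⟩
      · intro _ _ _
        positivity
    · rw [disjoint_left]
      intro p hp hp'
      rw [mem_filter] at hp
      exact hp.2.2 hp'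
  have h2 := (abs_le.1 (hC0 x (by omega))).2
  linarith

end Pool.Agent.TH847.TP
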