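import Pool.Agent.TH847.TP.Win
import Pool.Agent.TH847.TP.Cor
import Pool.Agent.TH847.TP.Neg

/-!
The window theorem in terms of the sums `S_B`.
-/

set_option autoImplicit false

namespace Pool.Agent.TH847.TP

theorem windows : ∀ n : ℕ, 1 ≤ n → ∃ s K : ℕ, 2 ≤ s ∧ ∃ ε : ℝ, 0 < ε ∧ WT n s K ε := by
  intro n hn
  classical
  obtain ⟨s, K, hs, ε, hε, h⟩ := window n hn
  refine ⟨s, K, hs, ε, hε, fun B hB x hx hS => ?_⟩
  have hle : x ≤ x ^ s := Nat.le_self_pow (by omega) x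
  set W := (Finset.range (x ^ s)).filter (fun b => b ∈ B ∧ x ≤ b) with hWdef
  have hWm : ∀ b, b ∈ W ↔ b ∈ B ∧ x ≤ b ∧ b < x ^ s := by
    intro b
    rw [hWdef, Finset.mem_filter, Finset.mem_range]
    tauto
  obtain ⟨t, h1, h2, h3⟩ := h B hB.1 hB.2 x W hx hWm (by rw [SB_sub B x (x ^ s) hle W hWm]; exact hS)
  exact ⟨t, h2, h1, h3⟩

end Pool.Agent.TH847.TP
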