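import Mathlib

/-!
The translation property: definitions.
-/

set_option autoImplicit false

namespace Pool.Agent.TH847.TP

/-- the positive integers without divisors in `B` -/
def AB (B : Set ℕ) : Set ℕ := {m : ℕ | 1 ≤ m ∧ ∀ b ∈ B, ¬ b ∣ m}

open Classical in
/-- the sum of the reciprocals of the members of `B` below `x` -/
noncomputable def SB (B : Set ℕ) (x : ℕ) : ℝ :=
  ∑ b ∈ (Finset.range x).filter (fun b => b ∈ B), (1 : ℝ) / b

/-- sets of positive integers that are pairwise coprime -/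
def PairCop (B : Set ℕ) : Prop := (∀ b ∈ B, 1 ≤ b) ∧ ∀ b ∈ B, ∀ b' ∈ B, b ≠ b' → Nat.Coprime b b'

/-- `t` translates the initial segment `1, …, n` of `A` -/
def Transl (A : Set ℕ) (n t : ℕ) : Prop := 1 ≤ t ∧ ∀ a : ℕ, 1 ≤ a → a ≤ n → (a ∈ A ↔ a + t ∈ A)

/-- the translation property -/
def TransProp (A : Set ℕ) : Prop := ∀ n : ℕ, 1 ≤ n → ∃ t : ℕ, Transl A n t

end Pool.Agent.TH847.TP
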