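import Pool.Agent.TH423.SH.FLLP
import Pool.Agent.TH423.SH.FLIP

/-!
The fundamental lemma for initial segments and periodic hits, and the number of hits of linear forms.
-/

set_option autoImplicit false

open Finset

namespace Pool.Agent.TH847.TP

lemma cnt_range (N r v : ℕ) (hr : 0 < r) :
    |(((range N).filter (fun n => n ≡ v [MOD r])).card : ℝ) - (N : ℝ) / r| ≤ 1 := by
  have h := Pool.Agent.TH423.SH.FLIP.cnt_Ioc 0 N r (v + 1) (Nat.zero_le _) hr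
  have e : ((range N).filter (fun n => n ≡ v [MOD r])).card =
      ((Ioc 0 N).filter (fun n => n ≡ v + 1 [MOD r])).card := by
    apply card_bij (fun n _ => n + 1)
    · intro n hn
      rw [mem_filter, mem_range] at hn
      rw [mem_filter, mem_Ioc]
      exact ⟨⟨by omega, by omega⟩, hn.2.add_right 1⟩
    · intro a _ b _ hab
      omega
    · intro b hb
      rw [mem_filter, mem_Ioc] at hb
      refine ⟨b - 1, ?_, by omega⟩
      rw [mem_filter, mem_range]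
      refine ⟨by omega, ?_⟩
      apply Nat.ModEq.add_right_cancel' 1
      rw [Nat.sub_add_cancel (by omega)]
      exact hb.2
  rw [e]
  simpa using h

open Classical in
/-- the fundamental lemma for an initial segment and periodic hits -/
def SV (C : ℕ) : Prop := ∀ (κ b J z0 : ℕ) (P : Finset ℕ), C * (κ + 1) ≤ b →
    C * (κ + 1) ≤ z0 → (∀ p ∈ P, p.Prime ∧ z0 < p ∧ p ≤ 2 ^ 2 ^ J) →
    ∀ (hit : ℕ → ℕ → Prop) (ρ : ℕ → ℕ), (∀ p ∈ P, ∀ v, hit p v ↔ hit p (v % p)) →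
    (∀ p ∈ P, ((range p).filter (fun c => hit p c)).card = ρ p) → (∀ p ∈ P, ρ p ≤ κ) → ∀ N : ℕ,
    |(((range N).filter (fun v => ∀ p ∈ P, ¬ hit p v)).card : ℝ) -
      N * ∏ p ∈ P, (1 - (ρ p : ℝ) / p)| ≤
      (1 / 2 : ℝ) ^ b * (N * ∏ p ∈ P, (1 - (ρ p : ℝ) / p)) + ((2 : ℝ) ^ 2 ^ J) ^ (C * b)

open Classical in
theorem sieve : ∃ C : ℕ, 1 ≤ C ∧ SV C := by
  obtain ⟨C0, hC0, hF⟩ := Pool.Agent.TH423.SH.fll
  refine ⟨2 * C0 + 4, by omega, ?_⟩
  intro κ b J z0 P hb hz hP hit ρ hper hcard hρ N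
  have hC : C0 * (κ + 1) ≤ (2 * C0 + 4) * (κ + 1) := Nat.mul_le_mul_right _ (by omega)
  set Om : ℕ → Finset ℕ := fun p => (range p).filter (fun c => hit p c) with hOm
  have hN0 : (0 : ℝ) ≤ N := Nat.cast_nonneg N
  have h1 := hF κ b J z0 P (fun p => 1 / (p : ℝ)) Om
    (hC.trans hb) (hC.trans hz) hP (fun p hp => by rw [hOm]; simp only [hcard p hp]; exact hρ p hp)
    (by
      intro p hp
      have hp2 : (2 : ℝ) ≤ p := by exact_mod_cast (hP p hp).1.two_le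
      refine ⟨by positivity, ?_⟩
      apply one_div_le_one_div_of_le (by linarith)
      linarith)
    (range N) (fun _ => 1) (N : ℝ) (fun _ => 1)
    (fun _ _ => zero_le_one) hN0 (fun _ => zero_le_one)
    (by
      intro T hT _ c hc
      obtain ⟨r, hr⟩ := Pool.Agent.TH423.SH.FLIP.crt_set 1 0 c T
        (fun p hp => ⟨(hP p (hT hp)).1, fun h => (hP p (hT hp)).1.one_lt.ne' (Nat.dvd_one.1 h)⟩)
        (fun p hp => by
          have := hc p hp
          rw [hOm, mem_filter, mem_range] at this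
          exact this.1)
      rw [sum_const, nsmul_eq_mul, mul_one]
      have e1 : (range N).filter (fun n => ∀ p ∈ T, n % p = c p) =
          (range N).filter (fun n => n ≡ r [MOD 1 * ∏ p ∈ T, p]) := by
        apply filter_congr
        intro n _
        rw [← hr n]
        simp [Nat.mod_one]
      have hpos : 0 < 1 * ∏ p ∈ T, p :=
        Nat.mul_pos one_pos (Finset.prod_pos fun p hp => (hP p (hT hp)).1.pos)
      have h2 := cnt_range N (1 * ∏ p ∈ T, p) r hpos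
      rw [e1]
      have e2 : (N : ℝ) / ((1 * ∏ p ∈ T, p : ℕ) : ℝ) = (N : ℝ) * ∏ p ∈ T, 1 / (p : ℝ) := by
        push_cast
        rw [one_mul, div_eq_mul_inv, ← prod_inv_distrib]
        simp only [one_div]
      rw [e2] at h2
      exact h2)
  have e3 : ∏ p ∈ P, (1 - ((Om p).card : ℝ) * (1 / (p : ℝ))) = ∏ p ∈ P, (1 - (ρ p : ℝ) / p) := by
    apply prod_congr rfl
    intro p hp
    rw [hOm]
    simp only [hcard p hp]
    rw [mul_one_div]
  have e4 : (range N).filter (fun n => ∀ p ∈ P, n % p ∉ Om p) =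
      (range N).filter (fun v => ∀ p ∈ P, ¬ hit p v) := by
    apply filter_congr
    intro n _
    apply forall₂_congr
    intro p hp
    rw [hOm, mem_filter, mem_range, hper p hp n]
    simp [Nat.mod_lt n (hP p hp).1.pos]
  rw [e3, e4, sum_const, nsmul_eq_mul, mul_one] at h1
  set Y : ℕ := (2 ^ 2 ^ J) ^ (C0 * b) with hY
  have hzκ : κ + 1 ≤ z0 := le_trans (Nat.le_mul_of_pos_left _ (by omega)) (hC.trans hz |>.trans le_rfl)
  suffices hs : ((J : ℝ) + 2) * ∑ T ∈ P.powerset.filter (fun T : Finset ℕ => ∏ p ∈ T, p ≤ Y),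
      (κ : ℝ) ^ T.card * 1 ≤ ((2 : ℝ) ^ 2 ^ J) ^ ((2 * C0 + 4) * b) by
    exact h1.trans (add_le_add le_rfl hs)
  have hterm : ∀ T ∈ P.powerset.filter (fun T : Finset ℕ => ∏ p ∈ T, p ≤ Y),
      ((κ : ℝ) ^ T.card * 1) ≤ (Y : ℝ) := by
    intro T hT
    rw [mem_filter, mem_powerset] at hT
    rw [mul_one]
    have h2 : κ ^ T.card ≤ ∏ p ∈ T, p := by
      rw [← prod_const]
      apply prod_le_prod'
      intro p hp
      have h3 := (hP p (hT.1 hp)).2.1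
      omega
    exact_mod_cast h2.trans hT.2
  have hJ : (J : ℝ) + 2 ≤ ((2 : ℝ) ^ 2 ^ J) ^ 2 := by
    have h2 : J + 2 ≤ (2 ^ 2 ^ J) ^ 2 := by
      have h3 : J < 2 ^ J := Nat.lt_two_pow_self
      have h4 : 2 ^ J < 2 ^ 2 ^ J := Nat.lt_two_pow_self
      have h5 : 2 ≤ 2 ^ 2 ^ J := by
        calc 2 = 2 ^ 1 := rfl
          _ ≤ 2 ^ 2 ^ J := Nat.pow_le_pow_right (by norm_num) (Nat.one_le_two_pow)
      nlinarith
    exact_mod_cast h2
  have hb4 : 4 ≤ 4 * b := by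
    have : 1 ≤ (2 * C0 + 4) * (κ + 1) := Nat.mul_pos (by omega) (by omega)
    omega
  have hone : (1 : ℝ) ≤ (2 : ℝ) ^ 2 ^ J := one_le_pow₀ (by norm_num)
  calc ((J : ℝ) + 2) * ∑ T ∈ P.powerset.filter (fun T : Finset ℕ => ∏ p ∈ T, p ≤ Y),
        (κ : ℝ) ^ T.card * 1
      ≤ ((J : ℝ) + 2) * ((Y : ℝ) ^ 2) := by
        apply mul_le_mul_of_nonneg_left _ (by positivity)
        calc ∑ T ∈ P.powerset.filter (fun T : Finset ℕ => ∏ p ∈ T, p ≤ Y), (κ : ℝ) ^ T.card * 1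
            ≤ ∑ _T ∈ P.powerset.filter (fun T : Finset ℕ => ∏ p ∈ T, p ≤ Y), (Y : ℝ) :=
              sum_le_sum hterm
          _ = ((P.powerset.filter (fun T : Finset ℕ => ∏ p ∈ T, p ≤ Y)).card : ℝ) * Y := by
              rw [sum_const, nsmul_eq_mul]
          _ ≤ (Y : ℝ) * Y := by
              apply mul_le_mul_of_nonneg_right _ (by positivity)
              exact_mod_cast Pool.Agent.TH423.SH.FLIP.card_le P (fun p hp => (hP p hp).1) Y
          _ = (Y : ℝ) ^ 2 := by ring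
    _ ≤ ((2 : ℝ) ^ 2 ^ J) ^ 2 * (Y : ℝ) ^ 2 := by
        apply mul_le_mul_of_nonneg_right hJ (by positivity)
    _ = ((2 : ℝ) ^ 2 ^ J) ^ (2 + 2 * (C0 * b)) := by
        rw [hY]
        push_cast
        rw [pow_add, mul_comm 2 (C0 * b), pow_mul _ (C0 * b) 2]
    _ ≤ ((2 : ℝ) ^ 2 ^ J) ^ ((2 * C0 + 4) * b) := by
        apply pow_le_pow_right₀ hone
        have : (2 * C0 + 4) * b = 2 * (C0 * b) + 4 * b := by ring
        omega

open Classical in
/-- the number of residue classes hit by linear forms with the same leading coefficient -/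
lemma card_hit {p : ℕ} (hp : p.Prime) (α : ℕ) (hα : ¬ p ∣ α) (E : Finset ℕ)
    (hE : ∀ β ∈ E, ∀ β' ∈ E, β % p = β' % p → β = β') :
    ((range p).filter (fun c => ∃ β ∈ E, p ∣ α * c + β)).card = E.card := by
  have := Fact.mk hp
  have hα' : (α : ZMod p) ≠ 0 := by rwa [Ne, ZMod.natCast_eq_zero_iff]
  symm
  apply card_bij (fun (β : ℕ) (_ : β ∈ E) => (-(β : ZMod p) / (α : ZMod p)).val)
  · intro β hβ
    rw [mem_filter, mem_range]
    refine ⟨ZMod.val_lt _, β, hβ, ?_⟩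
    rw [← ZMod.natCast_eq_zero_iff]
    push_cast
    rw [ZMod.natCast_zmod_val, mul_div_cancel₀ _ hα']
    ring
  · intro β hβ β' hβ' h
    have h2 := ZMod.val_injective p h
    rw [div_left_inj' hα', neg_inj] at h2
    apply hE β hβ β' hβ'
    exact (ZMod.natCast_eq_natCast_iff _ _ _).1 h2
  · intro c hc
    rw [mem_filter, mem_range] at hc
    obtain ⟨hcp, β, hβ, hd⟩ := hc
    refine ⟨β, hβ, ?_⟩
    have h2 : ((α * c + β : ℕ) : ZMod p) = 0 := (ZMod.natCast_eq_zero_iff _ _).2 hd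
    push_cast at h2
    have h3 : (c : ZMod p) = -(β : ZMod p) / α := by
      rw [eq_div_iff hα']
      linear_combination h2
    rw [← h3, ZMod.val_natCast_of_lt hcp]

/-- the product of the sieve is nonnegative -/
lemma prod_nonneg' {κ z0 : ℕ} {P : Finset ℕ} {ρ : ℕ → ℕ} (hz : κ ≤ z0)
    (hP : ∀ p ∈ P, z0 < p) (hρ : ∀ p ∈ P, ρ p ≤ κ) : 0 ≤ ∏ p ∈ P, (1 - (ρ p : ℝ) / p) := by
  apply prod_nonneg
  intro p hp
  have h1 := hP p hp
  have h2 := hρ p hp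
  have h3 : (0 : ℝ) < p := by exact_mod_cast (show 0 < p by omega)
  have h4 : (ρ p : ℝ) ≤ p := by exact_mod_cast (show ρ p ≤ p by omega)
  rw [sub_nonneg, div_le_one h3]
  exact h4

open Classical in
/-- lower bound -/
lemma sieve_lower {C κ b J z0 : ℕ} {P : Finset ℕ} (hC1 : 1 ≤ C) (hS : SV C) (hb : C * (κ + 1) ≤ b)
    (hz : C * (κ + 1) ≤ z0) (hP : ∀ p ∈ P, p.Prime ∧ z0 < p ∧ p ≤ 2 ^ 2 ^ J)
    (hit : ℕ → ℕ → Prop) (ρ : ℕ → ℕ) (hper : ∀ p ∈ P, ∀ v, hit p v ↔ hit p (v % p))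
    (hcard : ∀ p ∈ P, ((range p).filter (fun c => hit p c)).card = ρ p) (hρ : ∀ p ∈ P, ρ p ≤ κ) (U : ℕ)
    (T : Finset ℕ) (hT : ∀ v, v < U → (∀ p ∈ P, ¬ hit p v) → v ∈ T) :
    (1 / 2 : ℝ) * (U * ∏ p ∈ P, (1 - (ρ p : ℝ) / p)) - ((2 : ℝ) ^ 2 ^ J) ^ (C * b) ≤ (T.card : ℝ) := by
  have hb1 : 1 ≤ b := le_trans (Nat.mul_pos (by omega) (by omega)) hb
  have hκz : κ ≤ z0 := by
    have : κ + 1 ≤ C * (κ + 1) := Nat.le_mul_of_pos_left _ (by omega)
    omega
  have h1 := hS κ b J z0 P hb hz hP hit ρ hper hcard hρ U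
  have h0 := prod_nonneg' hκz (fun p hp => (hP p hp).2.1) hρ
  have hU : (0 : ℝ) ≤ U * ∏ p ∈ P, (1 - (ρ p : ℝ) / p) := mul_nonneg (Nat.cast_nonneg U) h0
  have h2 : (1 / 2 : ℝ) ^ b ≤ 1 / 2 := by
    calc (1 / 2 : ℝ) ^ b ≤ (1 / 2 : ℝ) ^ 1 := pow_le_pow_of_le_one (by norm_num) (by norm_num) hb1
      _ = 1 / 2 := pow_one _
  have h3 : ((range U).filter (fun v => ∀ p ∈ P, ¬ hit p v)).card ≤ T.card := by
    apply card_le_card
    intro v hv
    rw [mem_filter, mem_range] at hv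
    exact hT v hv.1 hv.2
  have h3' : (((range U).filter (fun v => ∀ p ∈ P, ¬ hit p v)).card : ℝ) ≤ T.card := by
    exact_mod_cast h3
  have h4 := (abs_le.1 h1).1
  have h5 := mul_le_mul_of_nonneg_right h2 hU
  linarith

open Classical in
/-- upper bound in a residue class -/
lemma sub_upper {C κ b J z0 : ℕ} {P : Finset ℕ} (hC1 : 1 ≤ C) (hS : SV C) (hb : C * (κ + 1) ≤ b)
    (hz : C * (κ + 1) ≤ z0) (hP : ∀ p ∈ P, p.Prime ∧ z0 < p ∧ p ≤ 2 ^ 2 ^ J)
    (hit : ℕ → ℕ → Prop) (ρ : ℕ → ℕ) (hper : ∀ p ∈ P, ∀ v, hit p v ↔ hit p (v % p))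
    (hcard : ∀ p ∈ P, ((range p).filter (fun c => hit p c)).card = ρ p) (hρ : ∀ p ∈ P, ρ p ≤ κ)
    (T : Finset ℕ) (q r U : ℕ) (hq : 0 < q) (hqU : q ≤ U)
    (hT : ∀ v ∈ T, v < U ∧ v % q = r ∧ ∀ p ∈ P, ¬ hit p (v / q)) :
    (T.card : ℝ) ≤ 4 * ((U : ℝ) / q) * ∏ p ∈ P, (1 - (ρ p : ℝ) / p) + ((2 : ℝ) ^ 2 ^ J) ^ (C * b) := by
  have hb1 : 1 ≤ b := le_trans (Nat.mul_pos (by omega) (by omega)) hb
  have hκz : κ ≤ z0 := by
    have : κ + 1 ≤ C * (κ + 1) := Nat.le_mul_of_pos_left _ (by omega)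
    omega
  have h1 := hS κ b J z0 P hb hz hP hit ρ hper hcard hρ (U / q + 1)
  have h0 := prod_nonneg' hκz (fun p hp => (hP p hp).2.1) hρ
  have hq' : (0 : ℝ) < q := by exact_mod_cast hq
  have h3 : T.card ≤ ((range (U / q + 1)).filter (fun v => ∀ p ∈ P, ¬ hit p v)).card := by
    apply card_le_card_of_injOn (fun v => v / q)
    · intro v hv
      obtain ⟨h5, h6, h7⟩ := hT v hv
      rw [mem_coe, mem_filter, mem_range]
      refine ⟨?_, h7⟩
      have : v / q ≤ U / q := Nat.div_le_div_right h5.le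
      show v / q < U / q + 1
      omega
    · intro v hv v' hv' he
      have he' : v / q = v' / q := he
      have h5 := (hT v hv).2.1
      have h6 := (hT v' hv').2.1
      rw [← Nat.div_add_mod v q, ← Nat.div_add_mod v' q, he', h5, h6]
  have h3' : (T.card : ℝ) ≤
      (((range (U / q + 1)).filter (fun v => ∀ p ∈ P, ¬ hit p v)).card : ℝ) := by exact_mod_cast h3
  have hUq : ((U / q + 1 : ℕ) : ℝ) ≤ 2 * ((U : ℝ) / q) := by
    have h5 : ((U / q : ℕ) : ℝ) ≤ (U : ℝ) / q := Nat.cast_div_le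
    have h6 : (1 : ℝ) ≤ (U : ℝ) / q := by
      rw [le_div_iff₀ hq', one_mul]
      exact_mod_cast hqU
    push_cast
    linarith
  have h2 : (1 / 2 : ℝ) ^ b ≤ 1 := pow_le_one₀ (by norm_num) (by norm_num)
  have hN0 : (0 : ℝ) ≤ ((U / q + 1 : ℕ) : ℝ) * ∏ p ∈ P, (1 - (ρ p : ℝ) / p) :=
    mul_nonneg (Nat.cast_nonneg _) h0
  have h4 := (abs_le.1 h1).2
  have h5 := mul_le_mul_of_nonneg_right h2 hN0
  have h6 := mul_le_mul_of_nonneg_right hUq h0
  linarith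

lemma dvd_mod_iff (p α β v : ℕ) : p ∣ α * v + β ↔ p ∣ α * (v % p) + β := by
  rw [Nat.dvd_iff_mod_eq_zero, Nat.dvd_iff_mod_eq_zero, Nat.add_mod, Nat.mul_mod, Nat.add_mod (α * (v % p)),
    Nat.mul_mod α (v % p), Nat.mod_mod]

end Pool.Agent.TH847.TP
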