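import Pool.Agent.TH847.TP.Main
import Pool.Agent.TH847.TP.Low
import Pool.Agent.TH847.TP.Def

/-!
A light window gives a translation.
-/

set_option autoImplicit false

open Finset

namespace Pool.Agent.TH847.TP

lemma kpow {X κ : ℝ} (hX : 1 ≤ X) (hκX : κ ≤ X) {i r : ℕ} (h : i + 1 ≤ r) : κ * X ^ i ≤ X ^ r := by
  calc κ * X ^ i ≤ X * X ^ i := mul_le_mul_of_nonneg_right hκX (by positivity)
    _ = X ^ (i + 1) := by ring
    _ ≤ X ^ r := pow_le_pow_right₀ hX h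

lemma final_num {n : ℕ} (hn : 1 ≤ n) {y e1 e2 S1 S2 w3 N1 N2 N3 U T0 : ℝ} (hy : 0 < y)
    (h0 : 1 / 2 * y - e1 ≤ T0)
    (hT : T0 ≤ n * ((4 * n * y * S1 + N1 * e1) + (n * U * S2 + N2) + (4 * y * w3 + N3 * e2)))
    (hS1 : S1 ≤ 1 / (48 * (n : ℝ) ^ 2)) (hw3 : w3 ≤ 1 / (96 * (n : ℝ))) (he1 : 32 * e1 ≤ y)
    (hN1 : 32 * (n * (N1 * e1)) ≤ y) (hS2 : 64 * (n * (n * U * S2)) ≤ y) (hN2 : 64 * (n * N2) ≤ y)
    (hN3 : 32 * (n * (N3 * e2)) ≤ y) : False := by
  have hn' : (1 : ℝ) ≤ n := by exact_mod_cast hn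
  have hn0 : (0 : ℝ) < n := by linarith
  have h1 : n * (4 * n * y * S1) ≤ y / 12 := by
    calc n * (4 * n * y * S1) ≤ n * (4 * n * y * (1 / (48 * (n : ℝ) ^ 2))) := by
          apply mul_le_mul_of_nonneg_left _ hn0.le
          apply mul_le_mul_of_nonneg_left hS1
          positivity
      _ = y / 12 := by field_simp; ring
  have h2 : n * (4 * y * w3) ≤ y / 24 := by
    calc n * (4 * y * w3) ≤ n * (4 * y * (1 / (96 * (n : ℝ)))) := by
          apply mul_le_mul_of_nonneg_left _ hn0.le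
          apply mul_le_mul_of_nonneg_left hw3
          positivity
      _ = y / 24 := by field_simp; ring
  have h3 : n * ((4 * n * y * S1 + N1 * e1) + (n * U * S2 + N2) + (4 * y * w3 + N3 * e2)) =
      n * (4 * n * y * S1) + n * (N1 * e1) + n * (n * U * S2) + n * N2 + n * (4 * y * w3) +
        n * (N3 * e2) := by ring
  rw [h3] at hT
  linarith

lemma sum_inv_nonneg (s : Finset ℕ) : 0 ≤ ∑ d ∈ s, (1 : ℝ) / d := sum_nonneg fun _ _ => by positivity

lemma sum_up {n : ℕ} (E : Finset ℕ) (F : ℕ → ℝ) (hE : E.card ≤ n) {y e1 e2 S1 S2 S3 w N1 N2 N3 U : ℝ}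
    (hS1 : 0 ≤ S1) (hS2 : 0 ≤ S2) (hS3 : 0 ≤ S3) (hy : 0 ≤ y) (he1 : 0 ≤ e1) (he2 : 0 ≤ e2)
    (hw : 0 ≤ w) (hU : 0 ≤ U) (hN1 : 0 ≤ N1) (hN2 : 0 ≤ N2) (hN3 : 0 ≤ N3)
    (hF : ∀ a ∈ E, F a ≤ (4 * n * y * S1 + N1 * e1) + (n * U * S2 + N2) +
      (4 * (y * w) * S3 + N3 * e2)) :
    ∑ a ∈ E, F a ≤ n * ((4 * n * y * S1 + N1 * e1) + (n * U * S2 + N2) +
      (4 * y * (w * S3) + N3 * e2)) := by
  have hR0 : 0 ≤ (4 * n * y * S1 + N1 * e1) + (n * U * S2 + N2) + (4 * (y * w) * S3 + N3 * e2) := by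
    positivity
  calc ∑ a ∈ E, F a ≤ ∑ _a ∈ E, ((4 * n * y * S1 + N1 * e1) + (n * U * S2 + N2) +
        (4 * (y * w) * S3 + N3 * e2)) := sum_le_sum hF
    _ = E.card * ((4 * n * y * S1 + N1 * e1) + (n * U * S2 + N2) +
        (4 * (y * w) * S3 + N3 * e2)) := by rw [sum_const, nsmul_eq_mul]
    _ ≤ n * ((4 * n * y * S1 + N1 * e1) + (n * U * S2 + N2) +
        (4 * (y * w) * S3 + N3 * e2)) := mul_le_mul_of_nonneg_right (by exact_mod_cast hE) hR0
    _ = _ := by ring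

/-- If a pairwise coprime set has small mass in one long window then it has a translation. -/
theorem window (n : ℕ) (hn : 1 ≤ n) : ∃ s K : ℕ, 2 ≤ s ∧ ∃ ε : ℝ, 0 < ε ∧
    ∀ B : Set ℕ, (∀ b ∈ B, 1 ≤ b) → (∀ b ∈ B, ∀ b' ∈ B, b ≠ b' → Nat.Coprime b b') →
    ∀ (x : ℕ) (W : Finset ℕ), K ≤ x → (∀ b, b ∈ W ↔ b ∈ B ∧ x ≤ b ∧ b < x ^ s) →
      ∑ b ∈ W, (1 : ℝ) / b ≤ ε →
      ∃ t : ℕ, 1 ≤ t ∧ t ≤ x ^ s ∧ ∀ a : ℕ, 1 ≤ a → a ≤ n → (a ∈ AB B ↔ a + t ∈ AB B) := by
  classical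
  obtain ⟨C, hC1, hS⟩ := sieve
  obtain ⟨A0, hA01, hA0⟩ := prod_tail
  obtain ⟨D, hD⟩ := exists_nat_ge (Real.exp (2 * n))
  have hD1 : 1 ≤ D := by
    have h1 : (1 : ℝ) ≤ Real.exp (2 * n) := Real.one_le_exp (by positivity)
    exact_mod_cast h1.trans hD
  set b0 := C * (n + 1) with hb0
  have hb01 : 1 ≤ b0 := Nat.mul_pos hC1 (by omega)
  set Y := 192 * n ^ 2 + b0 with hY
  have hY1 : 1 ≤ Y := by omega
  set w := Y ^ 2 with hw
  have hYw : Y ≤ w := Nat.le_self_pow (by norm_num) Y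
  have hn2 : n ≤ n ^ 2 := Nat.le_self_pow (by norm_num) n
  set Q1 := (Nat.factorial w) ^ 2 with hQ1
  have hQpos : 0 < Q1 := by positivity
  set d1 := 2 * (C * b0) with hd1
  set c1 := d1 + 2 * n + 1 with hc1
  set h := c1 + 1 with hh
  set g := 192 * n with hg
  set d2 := 2 ^ (h + g) * (2 * (C * b0)) with hd2
  set z := c1 + d2 + 2 * n + 4 with hz
  set r := c1 + 2 * z with hr
  set s := r + 2 with hs
  set K := w + Q1 + 2 * n + 3 + 128 * n ^ 2 * D + 2 ^ 2 ^ A0 with hK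
  have hn' : (1 : ℝ) ≤ n := by exact_mod_cast hn
  have hKa : w + Q1 + 2 * n + 3 + 128 * n ^ 2 * D ≤ K := Nat.le_add_right _ _
  have hKb : 2 ^ 2 ^ A0 ≤ K := Nat.le_add_left _ _
  have hQfac : (Nat.factorial w) ^ 2 = Q1 := rfl
  clear_value K s r z d2 g h c1 d1 Q1 w Y b0
  refine ⟨s, K, by omega, 1 / (96 * (n : ℝ) ^ 2), by positivity, ?_⟩
  intro B hB1 hBc x W hKx hW hWs
  -- the case `1 ∈ B`
  by_cases h1B : 1 ∈ B
  · refine ⟨1, le_rfl, Nat.one_le_pow _ _ (by omega), fun a _ _ => ?_⟩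
    constructor
    · intro h; exact absurd (one_dvd a) (h.2 1 h1B)
    · intro h; exact absurd (one_dvd (a + 1)) (h.2 1 h1B)
  have hB2 : ∀ b ∈ B, 1 < b := by
    intro b hb
    have := hB1 b hb
    have h2 : b ≠ 1 := fun h => h1B (h ▸ hb)
    omega
  obtain ⟨J, hJ1, hJ2⟩ := scale x (by omega)
  set P := (Ioo w x).filter (fun p => p.Prime ∧ p ∈ B) with hP
  set E := (Icc 1 n).filter (fun a => a ∈ AB B) with hE
  set U := x ^ r with hU
  set P2 := (Ioc w (2 ^ 2 ^ (J + h + g))).filter Nat.Prime with hP2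
  set Bs1 := (Ioc w (x ^ (2 * z))).filter (fun b => b ∈ B ∧ b ∉ P) with hBs1
  set Bs2 := (Ioc (x ^ (2 * z)) (x ^ (r + 1))).filter (fun b => b ∈ B ∧ ¬ b.Prime) with hBs2
  set M := (Icc 1 (x ^ (c1 + 1))).filter (fun m => ∀ p : ℕ, p.Prime → p ∣ m → w < p ∧ p ∉ P) with hM
  have hx2 : 2 ≤ x := by omega
  have hx1 : 1 ≤ x := by omega
  have hwx : w < x := by omega
  have hle : 2 ^ 2 ^ J ≤ 2 ^ 2 ^ (J + h) :=
    Nat.pow_le_pow_right (by norm_num) (Nat.pow_le_pow_right (by norm_num) (by omega))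
  have hle2 : 2 ^ 2 ^ J ≤ 2 ^ 2 ^ (J + h + g) :=
    Nat.pow_le_pow_right (by norm_num) (Nat.pow_le_pow_right (by norm_num) (by omega))
  -- elementary facts
  have hPf : ∀ p ∈ P, p.Prime ∧ w < p ∧ p ≤ 2 ^ 2 ^ J := by
    intro p hp
    rw [hP, mem_filter, mem_Ioo] at hp
    exact ⟨hp.2.1, hp.1.1, by omega⟩
  have hPB : ∀ p ∈ P, p ∈ B := by
    intro p hp
    rw [hP, mem_filter] at hp
    exact hp.2.2
  have hP2f : ∀ p ∈ P2, p.Prime ∧ w < p ∧ p ≤ 2 ^ 2 ^ (J + h + g) := by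
    intro p hp
    rw [hP2, mem_filter, mem_Ioc] at hp
    exact ⟨hp.2, hp.1.1, hp.1.2⟩
  have hPP : P ⊆ P2 := by
    intro p hp
    have h1 := hPf p hp
    rw [hP2, mem_filter, mem_Ioc]
    exact ⟨⟨h1.2.1, h1.2.2.trans hle2⟩, h1.1⟩
  have hPQ : ∀ p ∈ P2, ¬ p ∣ Q1 := by
    intro p hp hd
    have h1 := hP2f p hp
    rw [← hQfac] at hd
    have h2 := (h1.1.dvd_factorial).1 (h1.1.dvd_of_dvd_pow hd)
    omega
  have hEn : ∀ a ∈ E, 1 ≤ a ∧ a ≤ n := by
    intro a ha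
    rw [hE, mem_filter, mem_Icc] at ha
    exact ha.1
  have hEc : E.card ≤ n := by
    calc E.card ≤ (Icc 1 n).card := card_filter_le _ _
      _ = n := by rw [Nat.card_Icc, Nat.add_sub_cancel]
  have hbw : b0 ≤ w := by omega
  have hbw2 : C * (n + 1) ≤ w := hb0.ge.trans hbw
  have h2z : x ^ (2 * z) ≤ U := Nat.pow_le_pow_right hx1 (by omega)
  have hnw : n < w := by omega
  have hwz : w < x ^ (2 * z) := lt_of_lt_of_le hwx (Nat.le_self_pow (by omega) x)
  have hJbig : 2 ^ 2 ^ (J + h + g) ≤ x ^ (2 * z) := by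
    calc 2 ^ 2 ^ (J + h + g) = (2 ^ 2 ^ J) ^ (2 ^ (h + g)) := by
          rw [← pow_mul, ← pow_add]
          congr 2
          omega
      _ ≤ (x ^ 2) ^ (2 ^ (h + g)) := Nat.pow_le_pow_left hJ2 _
      _ = x ^ (2 * 2 ^ (h + g)) := by rw [← pow_mul]
      _ ≤ x ^ (2 * z) := by
          apply Nat.pow_le_pow_right hx1
          have h1 : 2 ^ (h + g) * 1 ≤ 2 ^ (h + g) * (2 * (C * b0)) := Nat.mul_le_mul_left _ (by
            have : 1 ≤ C * b0 := Nat.mul_pos hC1 hb01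
            omega)
          rw [← hd2] at h1
          omega
  have hcM : x ^ (c1 + 1) ≤ 2 ^ 2 ^ (J + h) := by
    calc x ^ (c1 + 1) ≤ (2 ^ 2 ^ J) ^ (c1 + 1) := Nat.pow_le_pow_left hJ1 _
      _ ≤ (2 ^ 2 ^ J) ^ (2 ^ h) := by
          apply Nat.pow_le_pow_right (by positivity)
          have : h < 2 ^ h := Nat.lt_two_pow_self
          omega
      _ = 2 ^ 2 ^ (J + h) := by rw [← pow_mul, ← pow_add]
  by_contra hcon
  push Not at hcon
  -- every sifted `v` is bad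
  have hbad : ∀ v, v < U → (∀ p ∈ P, ¬ ∃ a' ∈ E, p ∣ Q1 * v + (Q1 + a')) →
      ∃ a ∈ E, ∃ b ∈ B, w < b ∧ b ∣ Q1 * v + (Q1 + a) := by
    intro v hv _
    obtain ⟨a, ha1, ha2, ha3⟩ := hcon (Q1 * (v + 1)) (Nat.mul_pos hQpos (by omega)) (by
      calc Q1 * (v + 1) ≤ x * x ^ r := Nat.mul_le_mul (by omega) (by omega)
        _ = x ^ (r + 1) := by ring
        _ ≤ x ^ s := Nat.pow_le_pow_right hx1 (by omega))
    have hsmall : ∀ b ∈ B, b ≤ w → b ∣ Q1 * (v + 1) := by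
      intro b hb hbw'
      apply Dvd.dvd.mul_right
      rw [← hQfac]
      exact (Nat.dvd_factorial (hB1 b hb) hbw').trans (dvd_pow_self _ two_ne_zero)
    rcases ha3 with ⟨h1, h2⟩ | ⟨h1, h2⟩
    · have haE : a ∈ E := by
        rw [hE, mem_filter, mem_Icc]
        exact ⟨⟨ha1, ha2⟩, h1⟩
      refine ⟨a, haE, ?_⟩
      by_contra h3
      push Not at h3
      apply h2
      refine ⟨by omega, fun b hb hd => ?_⟩
      rcases Nat.lt_or_ge w b with h4 | h4
      · apply h3 b hb h4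
        have e : Q1 * v + (Q1 + a) = a + Q1 * (v + 1) := by ring
        rw [e]
        exact hd
      · exact h1.2 b hb ((Nat.dvd_add_left (hsmall b hb h4)).1 hd)
    · exfalso
      apply h1
      refine ⟨ha1, fun b hb hd => ?_⟩
      have h4 : b ≤ a := Nat.le_of_dvd ha1 hd
      exact h2.2 b hb (dvd_add hd (hsmall b hb (by omega)))
  -- counting
  set T0 := (range U).filter (fun v => ∀ p ∈ P, ¬ ∃ a' ∈ E, p ∣ Q1 * v + (Q1 + a')) with hT0
  set TA : ℕ → Finset ℕ := fun a => T0.filter (fun v => ∃ b ∈ B, w < b ∧ b ∣ Q1 * v + (Q1 + a)) with hTA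
  have hTsub : T0 ⊆ E.biUnion TA := by
    intro v hv
    have hv' := hv
    rw [hT0, mem_filter, mem_range] at hv
    obtain ⟨a, ha, h1⟩ := hbad v hv.1 hv.2
    rw [mem_biUnion]
    exact ⟨a, ha, mem_filter.2 ⟨hv', h1⟩⟩
  set V := ∏ p ∈ P, (1 - (E.card : ℝ) / p) with hV
  set y := (U : ℝ) * V with hy
  set e1 := ((2 : ℝ) ^ 2 ^ J) ^ (C * b0) with he1
  set e2 := ((2 : ℝ) ^ 2 ^ (J + h + g)) ^ (C * b0) with he2
  set Wp := ∏ p ∈ P2 \ P, (1 - 1 / (p : ℝ)) with hWp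
  have hlow : 1 / 2 * y - e1 ≤ (T0.card : ℝ) := by
    apply sieve_lower (κ := n) hC1 hS hb0.ge hbw2 hPf
      (fun p v => ∃ a' ∈ E, p ∣ Q1 * v + (Q1 + a')) (fun _ => E.card)
    · intro p _ v
      constructor
      · rintro ⟨a', h1, h2⟩
        exact ⟨a', h1, (dvd_mod_iff _ _ _ _).1 h2⟩
      · rintro ⟨a', h1, h2⟩
        exact ⟨a', h1, (dvd_mod_iff _ _ _ _).2 h2⟩
    · intro p hp
      convert card_hitE (hPf p hp).1 Q1 Q1 (hPQ p (hPP hp)) E (by
        intro a' ha'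
        have := (hEn a' ha').2
        have := (hPf p hp).2.1
        omega)
    · intro _ _
      exact hEc
    · intro v hv hv2
      rw [hT0, mem_filter, mem_range]
      exact ⟨hv, hv2⟩
  have hup : ∀ a ∈ E, ((TA a).card : ℝ) ≤ (4 * n * y * (∑ d ∈ Bs1, (1 : ℝ) / d) + Bs1.card * e1) +
      (n * U * (∑ d ∈ Bs2, (1 : ℝ) / d) + Bs2.card) +
      (4 * (y * Wp) * (∑ m ∈ M, (1 : ℝ) / m) + M.card * e2) := by
    intro a ha
    obtain ⟨ha1, ha2⟩ := hEn a ha
    have hafac : a ∣ Nat.factorial w := Nat.dvd_factorial ha1 (by omega)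
    obtain ⟨Qa', hQa'⟩ := hafac
    set Qa := Qa' * Nat.factorial w with hQa
    have hQaQ : Q1 = a * Qa := by
      rw [hQ1, hQa, sq, ← mul_assoc, ← hQa']
    apply perA hC1 hS P P2 E hb0.ge hbw2 hPf hP2f hPP hPQ (fun a ha => (hEn a ha).2) hEc hn (TA a) U a Qa
      ha1 ha2 ⟨a, by rw [mul_comm]; exact hQaQ⟩ Bs1 Bs2 M
    · intro d hd
      rw [hBs1, mem_filter, mem_Ioc] at hd
      refine ⟨by omega, hd.1.2.trans h2z, fun p hp hpd => ?_⟩
      have hne : p ≠ d := fun h => hd.2.2 (h ▸ hp)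
      have hco := hBc p (hPB p hp) d hd.2.1 hne
      exact (hPf p hp).1.one_lt.ne' (Nat.Coprime.eq_one_of_dvd hco hpd)
    · intro d hd
      rw [hBs2, mem_filter, mem_Ioc] at hd
      omega
    · intro m hm
      rw [hM, mem_filter, mem_Icc] at hm
      refine ⟨hm.1.1, hm.1.2.trans (Nat.pow_le_pow_right hx1 (by omega)), fun p hp hpm => ?_⟩
      exact (hm.2 p (hPf p hp).1 hpm).2 hp
    · intro v hv
      rw [hTA, mem_filter] at hv
      obtain ⟨hvT, b, hb, hwb, hbd⟩ := hv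
      rw [hT0, mem_filter, mem_range] at hvT
      refine ⟨hvT.1, hvT.2, ?_⟩
      have hbP : b ∉ P := fun hbP => hvT.2 b hbP ⟨a, ha, hbd⟩
      have hLtop : Q1 * v + (Q1 + a) ≤ x ^ (r + 1) := by
        have h1 : Q1 * (v + 1) ≤ Q1 * x ^ r := Nat.mul_le_mul_left _ (by omega)
        have h2 : a ≤ n * x ^ r := by
          calc a ≤ n * 1 := by omega
            _ ≤ n * x ^ r := Nat.mul_le_mul_left _ (Nat.one_le_pow _ _ hx1)
        have h3 : (Q1 + n) * x ^ r ≤ x * x ^ r := Nat.mul_le_mul_right _ (by omega)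
        calc Q1 * v + (Q1 + a) = Q1 * (v + 1) + a := by ring
          _ ≤ Q1 * x ^ r + n * x ^ r := add_le_add h1 h2
          _ = (Q1 + n) * x ^ r := by ring
          _ ≤ x * x ^ r := h3
          _ = x ^ (r + 1) := by ring
      have hLpos : 0 < Q1 * v + (Q1 + a) := by omega
      rcases Nat.lt_or_ge (x ^ (2 * z)) b with hbz | hbz
      · by_cases hbp : b.Prime
        · right; right
          have e : Q1 * v + (Q1 + a) = a * (Qa * v + (Qa + 1)) := by rw [hQaQ]; ring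
          have hbL : b ∣ Qa * v + (Qa + 1) := by
            rw [e] at hbd
            rcases hbp.dvd_mul.1 hbd with h1 | h1
            · have := Nat.le_of_dvd ha1 h1
              omega
            · exact h1
          obtain ⟨m, hm⟩ := hbL
          have hm0 : 0 < m := Nat.pos_of_ne_zero (by rintro rfl; omega)
          have hmle : m ≤ x ^ (c1 + 1) := by
            by_contra hmgt
            push Not at hmgt
            have h1 : x ^ (2 * z) * x ^ (c1 + 1) < b * m := Nat.mul_lt_mul_of_lt_of_le hbz hmgt.le (by positivity)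
            have h2 : b * m ≤ x ^ (r + 1) := by
              calc b * m = Qa * v + (Qa + 1) := hm.symm
                _ ≤ a * (Qa * v + (Qa + 1)) := Nat.le_mul_of_pos_left _ ha1
                _ = Q1 * v + (Q1 + a) := e.symm
                _ ≤ _ := hLtop
            have h3 : x ^ (2 * z) * x ^ (c1 + 1) = x ^ (r + 1) := by
              rw [← pow_add]
              congr 1
              omega
            omega
          refine ⟨m, ?_, ⟨b, by rw [hm]; ring⟩, ?_⟩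
          · rw [hM, mem_filter, mem_Icc]
            refine ⟨⟨hm0, hmle⟩, fun p hp hpm => ?_⟩
            have hpL : p ∣ Qa * v + (Qa + 1) := by
              rw [hm]
              exact Dvd.dvd.mul_left hpm b
            constructor
            · by_contra hpw
              have h1 : p ∣ Qa := by
                rw [hQa]
                exact Dvd.dvd.mul_left ((hp.dvd_factorial).2 (by omega)) _
              have h2 : p ∣ Qa * v + Qa := dvd_add (Dvd.dvd.mul_right h1 _) h1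
              rw [← add_assoc] at hpL
              exact hp.one_lt.ne' (Nat.dvd_one.1 ((Nat.dvd_add_right h2).1 hpL))
            · intro hpP
              apply hvT.2 p hpP
              refine ⟨a, ha, ?_⟩
              rw [e]
              exact Dvd.dvd.mul_left hpL a
          · intro p hp hpd
            have hpf := hP2f p (mem_sdiff.1 hp).1
            rw [hm, mul_comm b m] at hpd
            have h1 : p ∣ b := Nat.dvd_of_mul_dvd_mul_left hm0 hpd
            have h2 : p = b := (Nat.prime_dvd_prime_iff_eq hpf.1 hbp).1 h1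
            omega
        · right; left
          refine ⟨b, ?_, hbd⟩
          rw [hBs2, mem_filter, mem_Ioc]
          exact ⟨⟨hbz, (Nat.le_of_dvd hLpos hbd).trans hLtop⟩, hb, hbp⟩
      · left
        refine ⟨b, ?_, hbd⟩
        rw [hBs1, mem_filter, mem_Ioc]
        exact ⟨⟨hwb, hbz⟩, hb, hbP⟩
  -- the sums
  have hX : (1 : ℝ) ≤ x := by exact_mod_cast hx1
  have hX0 : (0 : ℝ) < x := by linarith
  have hS1 : ∑ d ∈ Bs1, (1 : ℝ) / d ≤ 1 / (48 * (n : ℝ) ^ 2) := by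
    rw [← sum_filter_add_sum_filter_not Bs1 (fun d => ¬ d.Prime)]
    have h1 : ∑ d ∈ Bs1.filter (fun d => ¬ d.Prime), (1 : ℝ) / d ≤ 1 / (96 * (n : ℝ) ^ 2) := by
      have h2 := comp_sum (Bs1.filter (fun d => ¬ d.Prime)) (by
        intro b hb b' hb' hne
        rw [mem_filter, hBs1, mem_filter] at hb hb'
        exact hBc b hb.1.2.1 b' hb'.1.2.1 hne) Y hY1 (by
        intro b hb
        rw [mem_filter, hBs1, mem_filter, mem_Ioc] at hb
        exact ⟨hb.2, hw ▸ hb.1.1.1⟩)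
      refine h2.trans ?_
      rw [div_le_div_iff₀ (by positivity) (by positivity)]
      have h3 : ((192 * n ^ 2 : ℕ) : ℝ) ≤ Y := by exact_mod_cast (show 192 * n ^ 2 ≤ Y by omega)
      push_cast at h3
      linarith
    have h2 : ∑ d ∈ Bs1.filter (fun d => ¬ ¬ d.Prime), (1 : ℝ) / d ≤ 1 / (96 * (n : ℝ) ^ 2) := by
      refine le_trans ?_ hWs
      apply sum_le_sum_of_subset_of_nonneg
      · intro b hb
        rw [mem_filter, hBs1, mem_filter, mem_Ioc, not_not] at hb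
        rw [hW]
        refine ⟨hb.1.2.1, ?_, ?_⟩
        · by_contra hbx
          apply hb.1.2.2
          rw [hP, mem_filter, mem_Ioo]
          exact ⟨⟨hb.1.1.1, by omega⟩, hb.2, hb.1.2.1⟩
        · calc b ≤ x ^ (2 * z) := hb.1.1.2
            _ < x ^ s := Nat.pow_lt_pow_right (by omega) (by omega)
      · intro _ _ _
        positivity
    have h3 : 1 / (48 * (n : ℝ) ^ 2) = 1 / (96 * (n : ℝ) ^ 2) + 1 / (96 * (n : ℝ) ^ 2) := by
      field_simp
      norm_num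
    linarith
  have hS2 : ∑ d ∈ Bs2, (1 : ℝ) / d ≤ 2 / (x : ℝ) ^ z := by
    have h2 := comp_sum Bs2 (by
      intro b hb b' hb' hne
      rw [hBs2, mem_filter] at hb hb'
      exact hBc b hb.2.1 b' hb'.2.1 hne) (x ^ z) (Nat.one_le_pow _ _ hx1) (by
      intro b hb
      rw [hBs2, mem_filter, mem_Ioc] at hb
      refine ⟨hb.2.2, ?_⟩
      calc (x ^ z) ^ 2 = x ^ (2 * z) := by rw [← pow_mul, mul_comm]
        _ < b := hb.1.1)
    push_cast at h2
    exact h2
  have hN2 : (Bs2.card : ℝ) ≤ (x : ℝ) ^ (r - 2 * n - 1) := by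
    have h1 := comp_card Bs2 (by
      intro b hb b' hb' hne
      rw [hBs2, mem_filter] at hb hb'
      exact hBc b hb.2.1 b' hb'.2.1 hne) (x ^ (r + 1)) (by
      intro b hb
      rw [hBs2, mem_filter, mem_Ioc] at hb
      exact ⟨hb.2.2, hB2 b hb.2.1, hb.1.2⟩)
    have h2 : Nat.sqrt (x ^ (r + 1)) ≤ x ^ (r - 2 * n - 1) := by
      rw [← Nat.sqrt_eq' (x ^ (r - 2 * n - 1))]
      apply Nat.sqrt_le_sqrt
      rw [← pow_mul]
      exact Nat.pow_le_pow_right hx1 (by omega)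
    exact_mod_cast h1.trans h2
  have hN1 : (Bs1.card : ℝ) ≤ (x : ℝ) ^ (2 * z) := by
    have h1 : Bs1.card ≤ x ^ (2 * z) := by
      calc Bs1.card ≤ (Ioc w (x ^ (2 * z))).card := card_filter_le _ _
        _ ≤ x ^ (2 * z) := by rw [Nat.card_Ioc]; omega
    exact_mod_cast h1
  have hN3 : (M.card : ℝ) ≤ (x : ℝ) ^ (c1 + 1) := by
    have h1 : M.card ≤ x ^ (c1 + 1) := by
      calc M.card ≤ (Icc 1 (x ^ (c1 + 1))).card := card_filter_le _ _
        _ = x ^ (c1 + 1) := by rw [Nat.card_Icc, Nat.add_sub_cancel]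
    exact_mod_cast h1
  have hwM : Wp * ∑ m ∈ M, (1 : ℝ) / m ≤ 1 / (96 * (n : ℝ)) := by
    have hAJ : A0 ≤ J + h := by
      by_contra hlt
      have h1 : 2 ^ 2 ^ J ≤ 2 ^ 2 ^ A0 :=
        Nat.pow_le_pow_right (by norm_num) (Nat.pow_le_pow_right (by norm_num) (by omega))
      omega
    have h1 := tail_bound hA0 w (J + h) g hAJ P M (by omega)
      (fun p hp => (hPf p hp).2.2.trans hle) (by
        intro m hm
        rw [hM, mem_filter, mem_Icc] at hm
        exact ⟨hm.1.1, hm.1.2.trans hcM, hm.2⟩)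
    refine h1.trans ?_
    have h2 : (96 * (n : ℝ)) ≤ Real.exp ((g : ℝ) / 2) := by
      have h3 := Real.add_one_le_exp ((g : ℝ) / 2)
      have h4 : (g : ℝ) / 2 = 96 * n := by
        rw [hg]
        push_cast
        ring
      rw [h4] at h3 ⊢
      linarith
    rw [Real.exp_neg, ← one_div]
    exact one_div_le_one_div_of_le (by positivity) h2
  -- the size of the main term
  have hVlow : 1 ≤ V * (D * (x : ℝ) ^ (2 * n)) := by
    apply V_lower P x n E.card D hx1 hEc _ hD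
    intro p hp
    rw [hP, mem_filter, mem_Ioo] at hp
    have : 192 * n ^ 2 ≤ Y := by omega
    refine ⟨by omega, by omega, by omega⟩
  have hDX : (0 : ℝ) < D * (x : ℝ) ^ (2 * n) := by
    have : (0 : ℝ) < D := by exact_mod_cast hD1
    positivity
  have hVpos : 0 < V := by
    by_contra hneg
    push Not at hneg
    have := mul_nonpos_of_nonpos_of_nonneg hneg hDX.le
    linarith
  have hUr : (U : ℝ) = (x : ℝ) ^ r := by rw [hU]; push_cast; ring
  have hUpos : (0 : ℝ) < U := by rw [hUr]; positivity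
  have hypos : 0 < y := mul_pos hUpos hVpos
  have hkey : ∀ (κ : ℕ) (j : ℕ), κ ≤ 128 * n ^ 2 → j + 2 * n + 1 ≤ r → (κ : ℝ) * (x : ℝ) ^ j ≤ y := by
    intro κ j hκ hj
    have h1 : ((κ * D : ℕ) : ℝ) ≤ x := by
      have h2 : κ * D ≤ 128 * n ^ 2 * D := Nat.mul_le_mul_right _ hκ
      exact_mod_cast (show κ * D ≤ x by omega)
    have h2 := kpow hX h1 (show j + 2 * n + 1 ≤ r from hj)
    have h3 : ((κ : ℝ) * (x : ℝ) ^ j) * (D * (x : ℝ) ^ (2 * n)) ≤ y * (D * (x : ℝ) ^ (2 * n)) := by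
      calc ((κ : ℝ) * (x : ℝ) ^ j) * (D * (x : ℝ) ^ (2 * n))
          = ((κ * D : ℕ) : ℝ) * (x : ℝ) ^ (j + 2 * n) := by
            push_cast
            ring
        _ ≤ (x : ℝ) ^ r := h2
        _ = (U : ℝ) * 1 := by rw [hUr, mul_one]
        _ ≤ (U : ℝ) * (V * (D * (x : ℝ) ^ (2 * n))) := mul_le_mul_of_nonneg_left hVlow hUpos.le
        _ = y * (D * (x : ℝ) ^ (2 * n)) := by rw [hy]; ring
    exact le_of_mul_le_mul_right h3 hDX
  have he1' : e1 ≤ (x : ℝ) ^ d1 := by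
    have h1 : ((2 : ℝ) ^ 2 ^ J) ≤ (x : ℝ) ^ 2 := by exact_mod_cast hJ2
    calc e1 ≤ ((x : ℝ) ^ 2) ^ (C * b0) := pow_le_pow_left₀ (by positivity) h1 _
      _ = (x : ℝ) ^ d1 := by rw [← pow_mul, hd1]
  have he2' : e2 ≤ (x : ℝ) ^ d2 := by
    have h1 : ((2 : ℝ) ^ 2 ^ J) ≤ (x : ℝ) ^ 2 := by exact_mod_cast hJ2
    calc e2 = (((2 : ℝ) ^ 2 ^ J) ^ (2 ^ (h + g))) ^ (C * b0) := by
          rw [he2, ← pow_mul 2 (2 ^ J), ← pow_add]
          congr 3
          omega
      _ ≤ (((x : ℝ) ^ 2) ^ (2 ^ (h + g))) ^ (C * b0) := by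
          apply pow_le_pow_left₀ (by positivity)
          exact pow_le_pow_left₀ (by positivity) h1 _
      _ = (x : ℝ) ^ d2 := by
          rw [← pow_mul, ← pow_mul]
          congr 1
          rw [hd2]
          ring
  have he10 : 0 ≤ e1 := by positivity
  have he20 : 0 ≤ e2 := by positivity
  have hn0 : (0 : ℝ) ≤ n := by linarith
  have hWp0 : 0 ≤ Wp := by
    have := prod_nonneg' (κ := n) (P := P2 \ P) (ρ := fun _ => 1) hnw.le
      (fun p hp => (hP2f p (mem_sdiff.1 hp).1).2.1) (fun _ _ => hn)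
    rw [hWp]
    simpa using this
  clear_value e1 e2 y Wp V TA T0 M Bs2 Bs1 P2 U E P
  have hTup : (T0.card : ℝ) ≤ n * ((4 * n * y * (∑ d ∈ Bs1, (1 : ℝ) / d) + Bs1.card * e1) +
      (n * U * (∑ d ∈ Bs2, (1 : ℝ) / d) + Bs2.card) +
      (4 * y * (Wp * ∑ m ∈ M, (1 : ℝ) / m) + M.card * e2)) := by
    have h1 : (T0.card : ℝ) ≤ ∑ a ∈ E, ((TA a).card : ℝ) := by
      exact_mod_cast (card_le_card hTsub).trans card_biUnion_le
    exact h1.trans (sum_up E (fun a => ((TA a).card : ℝ)) hEc (sum_inv_nonneg Bs1) (sum_inv_nonneg Bs2)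
      (sum_inv_nonneg M) hypos.le he10 he20 hWp0 hUpos.le (Nat.cast_nonneg _) (Nat.cast_nonneg _)
      (Nat.cast_nonneg _) hup)
  have hnn : n ≤ 128 * n ^ 2 := by omega
  apply final_num hn hypos hlow hTup hS1 hwM
  · have h1 := hkey 32 d1 (by omega) (by omega)
    push_cast at h1
    linarith
  · have h1 := hkey (32 * n) (2 * z + d1) (by omega) (by omega)
    push_cast at h1
    have h2 : (Bs1.card : ℝ) * e1 ≤ (x : ℝ) ^ (2 * z + d1) := by
      rw [pow_add]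
      exact mul_le_mul hN1 he1' he10 (by positivity)
    calc 32 * ((n : ℝ) * ((Bs1.card : ℝ) * e1)) = (32 * n) * ((Bs1.card : ℝ) * e1) := by ring
      _ ≤ (32 * n) * (x : ℝ) ^ (2 * z + d1) := mul_le_mul_of_nonneg_left h2 (by positivity)
      _ ≤ y := h1
  · have h1 := hkey (128 * n ^ 2) (r - z) le_rfl (by omega)
    push_cast at h1
    have h2 : (U : ℝ) * ∑ d ∈ Bs2, (1 : ℝ) / d ≤ 2 * (x : ℝ) ^ (r - z) := by
      calc (U : ℝ) * ∑ d ∈ Bs2, (1 : ℝ) / d ≤ (x : ℝ) ^ r * (2 / (x : ℝ) ^ z) := by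
            rw [hUr]
            exact mul_le_mul_of_nonneg_left hS2 (by positivity)
        _ = 2 * (x : ℝ) ^ (r - z) := by
            have e : (x : ℝ) ^ r = (x : ℝ) ^ (r - z) * (x : ℝ) ^ z := by
              rw [← pow_add]
              congr 1
              omega
            rw [e]
            field_simp
    calc 64 * ((n : ℝ) * (n * U * ∑ d ∈ Bs2, (1 : ℝ) / d))
        = (64 * n ^ 2) * ((U : ℝ) * ∑ d ∈ Bs2, (1 : ℝ) / d) := by ring
      _ ≤ (64 * n ^ 2) * (2 * (x : ℝ) ^ (r - z)) := mul_le_mul_of_nonneg_left h2 (by positivity)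
      _ = 128 * n ^ 2 * (x : ℝ) ^ (r - z) := by ring
      _ ≤ y := h1
  · have h1 := hkey (64 * n) (r - 2 * n - 1) (by omega) (by omega)
    push_cast at h1
    calc 64 * ((n : ℝ) * (Bs2.card : ℝ)) = (64 * n) * (Bs2.card : ℝ) := by ring
      _ ≤ (64 * n) * (x : ℝ) ^ (r - 2 * n - 1) := mul_le_mul_of_nonneg_left hN2 (by positivity)
      _ ≤ y := h1
  · have h1 := hkey (32 * n) (c1 + 1 + d2) (by omega) (by omega)
    push_cast at h1
    have h2 : (M.card : ℝ) * e2 ≤ (x : ℝ) ^ (c1 + 1 + d2) := by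
      rw [pow_add]
      exact mul_le_mul hN3 he2' he20 (by positivity)
    calc 32 * ((n : ℝ) * ((M.card : ℝ) * e2)) = (32 * n) * ((M.card : ℝ) * e2) := by ring
      _ ≤ (32 * n) * (x : ℝ) ^ (c1 + 1 + d2) := mul_le_mul_of_nonneg_left h2 (by positivity)
      _ ≤ y := h1

end Pool.Agent.TH847.TP
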